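import Pool.Agent.B2v.Gl1

/-! Module GL2 (MP_491344_nt, variable density): the glued set, representation bound and counting. -/

namespace Pool.Agent.B2v

private theorem gl2_top (F T : ℕ → Set ℕ) (M : ℕ → ℕ) (m i x : ℕ) (hx : x ∈ T i) :
    2 * x + 1 ∈ glue F T M m i := by
  cases m with
  | zero => exact ⟨x, hx, rfl⟩
  | succ m => exact Or.inl ⟨x, hx, rfl⟩

private theorem gl2_odd (F T : ℕ → Set ℕ) (M : ℕ → ℕ) :
    ∀ m i y, y ∈ glue F T M m i → y % 2 = 1 := by
  intro m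
  induction m with
  | zero =>
    rintro i y ⟨x, -, rfl⟩
    omega
  | succ m ih =>
    intro i y hy
    rcases hy with ⟨x, -, rfl⟩ | ⟨s, -, b, -, rfl⟩
    · omega
    · have : (2 * s + 1) + 4 * M i * b = 2 * (s + 2 * (M i * b)) + 1 := by ring
      omega

private theorem gl2_stable {F T : ℕ → Set ℕ} {M : ℕ → ℕ} {R' R : ℕ → ℝ}
    (S : Stages F T M R' R) : ∀ m i y n, y ∈ glue F T M m i → y ≤ n → y ∈ glue F T M n i := by
  intro m
  induction m with
  | zero =>
    rintro i y n ⟨x, hx, rfl⟩ -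
    exact gl2_top F T M n i x hx
  | succ m ih =>
    intro i y n hy hyn
    rcases hy with ⟨x, hx, rfl⟩ | ⟨s, hs, b, hb, rfl⟩
    · exact gl2_top F T M n i x hx
    · have hM := S.hF i s hs
      have h1 : 1 * b ≤ M i * b := Nat.mul_le_mul_right b (by omega)
      have h2 : 4 * M i * b = 4 * (M i * b) := by ring
      obtain ⟨n', rfl⟩ : ∃ n', n = n' + 1 := ⟨n - 1, by omega⟩
      exact Or.inr ⟨s, hs, b, ih (i + 1) b n' hb (by omega), rfl⟩

private theorem gl2_count {F T : ℕ → Set ℕ} {M : ℕ → ℕ} {R' R : ℕ → ℝ}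
    (S : Stages F T M R' R) : ∀ j i z,
    (∏ k ∈ Finset.range j, (F (i + k)).ncard) * ({x ∈ T (i + j) | 2 * x + 2 ≤ z}).ncard ≤
      ({y ∈ glue F T M j i | y < PV M i j * z}).ncard := by
  intro j
  induction j with
  | zero =>
    intro i z
    rw [Finset.prod_range_zero, one_mul, add_zero]
    refine Set.ncard_le_ncard_of_injOn (fun x => 2 * x + 1) ?_ ?_ ?_
    · rintro x ⟨hx, hxz⟩
      refine ⟨⟨x, hx, rfl⟩, ?_⟩
      simp only [PV, Finset.range_zero, Finset.prod_empty, one_mul]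
      omega
    · intro x _ y _ h
      simp only at h
      omega
    · apply (Set.finite_Iio (PV M i 0 * z)).subset
      rintro y ⟨-, hy⟩
      exact hy
  | succ j ih =>
    intro i z
    have hFfin : (F i).Finite := (Set.finite_Iio (M i)).subset (fun s hs => S.hF i s hs)
    have e1 : ∏ k ∈ Finset.range (j + 1), (F (i + k)).ncard =
        (F i).ncard * ∏ k ∈ Finset.range j, (F (i + 1 + k)).ncard := by
      rw [Finset.prod_range_succ', mul_comm, add_zero]
      congr 1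
      refine Finset.prod_congr rfl fun k _ => ?_
      rw [show i + (k + 1) = i + 1 + k by omega]
    have e2 : PV M i (j + 1) = 4 * M i * PV M (i + 1) j := by
      unfold PV
      rw [Finset.prod_range_succ', mul_comm]
      congr 1
      refine Finset.prod_congr rfl fun k _ => ?_
      rw [show i + (k + 1) = i + 1 + k by omega]
    have h1 := ih (i + 1) z
    rw [e1, mul_assoc, show i + (j + 1) = i + 1 + j by omega]
    refine (Nat.mul_le_mul_left _ h1).trans ?_
    rw [← Set.ncard_prod]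
    refine Set.ncard_le_ncard_of_injOn (fun p => (2 * p.1 + 1) + 4 * M i * p.2) ?_ ?_ ?_
    · rintro ⟨s, b⟩ ⟨hs, hb, hbz⟩
      simp only at hs hb hbz
      refine ⟨Or.inr ⟨s, hs, b, hb, rfl⟩, ?_⟩
      have hM := S.hF i s hs
      simp only
      rw [e2]
      calc (2 * s + 1) + 4 * M i * b < 4 * M i * (b + 1) := by
            rw [mul_add, mul_one]; omega
        _ ≤ 4 * M i * (PV M (i + 1) j * z) := Nat.mul_le_mul_left _ hbz
        _ = 4 * M i * PV M (i + 1) j * z := by ring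
    · rintro ⟨s, b⟩ ⟨hs, -, -⟩ ⟨s', b'⟩ ⟨hs', -, -⟩ h
      simp only at hs hs' h
      have hM := S.hF i s hs
      have hM' := S.hF i s' hs'
      have key : ∀ x b : ℕ, x < M i → ((2 * x + 1) + 4 * M i * b) % (4 * M i) = 2 * x + 1 ∧
          ((2 * x + 1) + 4 * M i * b) / (4 * M i) = b := by
        intro x b hx
        have h1 : 2 * x + 1 < 4 * M i := by omega
        rw [Nat.add_mul_mod_self_left, Nat.mod_eq_of_lt h1,
          Nat.add_mul_div_left _ _ (by omega : 0 < 4 * M i), Nat.div_eq_of_lt h1]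
        omega
      obtain ⟨a1, a2⟩ := key s b hM
      obtain ⟨b1, b2⟩ := key s' b' hM'
      rw [h] at a1 a2
      have e3 : 2 * s' + 1 = 2 * s + 1 := b1.symm.trans a1
      have e4 : b' = b := b2.symm.trans a2
      apply Prod.ext
      · simp only
        omega
      · exact e4.symm
    · apply (Set.finite_Iio (PV M i (j + 1) * z)).subset
      rintro y ⟨-, hy⟩
      exact hy

/-- Module GL2.  Every element of `glue m i` is `≥ PV`-large or has few stages: `glue m i` is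
increasing in `m`, and an element of `glue (m+1) i` which is not in `glue m i` is
`≥ PV M i (m+1) ≥ 4^(m+1)` (all `M (i+k) ≥ 1` for `k ≤ m`, because `F (i+k) ≠ ∅`).  So for given `n`
the elements `≤ n` of `⋃ m, glue m 0` are those of `glue n 0`, and
`rp (⋃ m, glue m 0) n = rp (glue n 0) n`: use `glue_rep`. -/
theorem glue_rep_union {F T : ℕ → Set ℕ} {M : ℕ → ℕ} {R' R : ℕ → ℝ} (S : Stages F T M R' R)
    (n : ℕ) (X : ℝ) (hX : 0 ≤ X)
    (h : ∀ j, (∀ k < j, (F k).Nonempty) → PV M 0 j ≤ n →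
        2 * (∏ k ∈ Finset.range j, R' k) * R j ≤ X) :
    (rp (⋃ m, glue F T M m 0) n : ℝ) ≤ X := by
  have h1 : (rp (glue F T M n 0) n : ℝ) ≤ X := by
    apply glue_rep S n 0 n X hX
    intro j _ hne hPV
    have h2 := h j (fun k hk => by simpa using hne k hk) hPV
    simpa using h2
  have h2 : {x : ℕ × ℕ | x.1 ∈ (⋃ m, glue F T M m 0) ∧ x.2 ∈ (⋃ m, glue F T M m 0) ∧
      x.1 + x.2 = n} =
      {x : ℕ × ℕ | x.1 ∈ glue F T M n 0 ∧ x.2 ∈ glue F T M n 0 ∧ x.1 + x.2 = n} := by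
    ext p
    constructor
    · rintro ⟨ha, hb, hc⟩
      obtain ⟨m, hm⟩ := Set.mem_iUnion.mp ha
      obtain ⟨m', hm'⟩ := Set.mem_iUnion.mp hb
      exact ⟨gl2_stable S m 0 _ n hm (by omega), gl2_stable S m' 0 _ n hm' (by omega), hc⟩
    · rintro ⟨ha, hb, hc⟩
      exact ⟨Set.mem_iUnion.mpr ⟨n, ha⟩, Set.mem_iUnion.mpr ⟨n, hb⟩, hc⟩
  unfold rp at h1 ⊢
  rw [h2]
  exact h1

/-- Module GL2 (counting).  The map `(s_0, ..., s_(j-1), x) ↦ ∑_(k<j) PV 0 k (2 s_k + 1) +
PV 0 j (2 x + 1)` is injective and its values are `< PV 0 j * (2 x + 2) ≤ N`.  Induction on `j` from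
the other end: for all `i`,
`#{y ∈ glue F T M j i | y < PV M i j * z} ≥ (∏ k<j, #F (i+k)) * #{x ∈ T (i+j) | 2 x + 2 ≤ z}`;
elements of the second kind `(2s+1) + 4 M b`, `b < PV (i+1) (j-1) z`, are `< 4 M (b+1) ≤ PV i j z`, and
`(s, b)` is determined by `y % (4M)`, `y / (4M)`. -/
theorem glue_count {F T : ℕ → Set ℕ} {M : ℕ → ℕ} {R' R : ℕ → ℝ} (S : Stages F T M R' R)
    (j z N : ℕ) (hN : PV M 0 j * z ≤ N) :
    (∏ k ∈ Finset.range j, (F k).ncard) * ({x ∈ T j | 2 * x + 2 ≤ z}).ncard ≤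
      ((⋃ m, glue F T M m 0) ∩ Set.Icc 1 N).ncard := by
  have h1 := gl2_count S j 0 z
  simp only [zero_add] at h1
  refine h1.trans (Set.ncard_le_ncard ?_ ((Set.finite_Icc 1 N).subset Set.inter_subset_right))
  rintro y ⟨hy, hyz⟩
  have := gl2_odd F T M j 0 y hy
  exact ⟨Set.mem_iUnion.mpr ⟨j, hy⟩, by omega, by omega⟩

end Pool.Agent.B2v
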