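import Pool.Agent.B2v.Prm
import Pool.Agent.B2v.Gl2

/-! Module CNA (MP_491344_nt, variable density): the lower bound for the counting function. -/

namespace Pool.Agent.B2v

/-- full digits of a stage -/
def FF (A : ℕ → Set ℕ) (M : ℕ → ℕ) (k : ℕ) : Set ℕ := {x | x ∈ A k ∧ x < M k}

/-- top digits of a stage -/
def TT (A : ℕ → Set ℕ) (M : ℕ → ℕ) (k : ℕ) : Set ℕ := {x | x ∈ A k ∧ (M k = 0 ∨ x < M k)}

private theorem cna_pv {ε e : ℕ → ℝ} {M P T : ℕ → ℕ} {fin : ℕ → Prop} (S : Sel ε e M P T fin)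
    (j : ℕ) : PV M 0 j = P j := by
  induction j with
  | zero => simp [PV, S.P0]
  | succ n ih =>
      rw [S.Ps, ← ih]
      unfold PV
      rw [Finset.prod_range_succ, zero_add]
      ring

private theorem cna_log {ε e : ℕ → ℝ} {M P T : ℕ → ℕ} {fin : ℕ → Prop} (S : Sel ε e M P T fin)
    (j : ℕ) (hj : ∀ k < j, fin k) : 0 < P j ∧
      ∑ k ∈ Finset.range j, Real.log (4 * (M k : ℝ)) = Real.log (P j) := by
  induction j with
  | zero => simp [S.P0]
  | succ n ih =>
      obtain ⟨h1, h2⟩ := ih (fun k hk => hj k (by omega))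
      have h3 := S.M3 n (hj n (by omega))
      refine ⟨by rw [S.Ps]; positivity, ?_⟩
      rw [Finset.sum_range_succ, h2, S.Ps]
      push_cast
      have h4 : (0 : ℝ) < M n := by exact_mod_cast (by omega : 0 < M n)
      have h5 : (0 : ℝ) < P n := by exact_mod_cast h1
      rw [Real.log_mul (by positivity) h5.ne']
      ring

private theorem cna_log32 : Real.log (3 / 2) ≤ 1 / 2 := by
  have := Real.log_le_sub_one_of_pos (by norm_num : (0 : ℝ) < 3 / 2)
  linarith

private theorem cna_log6 : Real.log 6 ≤ 2 := by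
  have h1 : (6 : ℝ) = 2 * 2 * (3 / 2) := by norm_num
  rw [h1, Real.log_mul (by norm_num) (by norm_num), Real.log_mul (by norm_num) (by norm_num)]
  linarith [cna_log32, Real.log_two_lt_d9]

private theorem cna_stage {m : ℕ} {e G c : ℝ} (hm : 3 ≤ m) (he : 0 < e) (he2 : e < 1 / 16)
    (h : ((m - 1 : ℕ) : ℝ) ^ (1 / 2 - e) ≤ Real.exp G * c) :
    Real.exp (1 / 2 * Real.log (4 * (m : ℝ)) - 1 - e * Real.log m - G) ≤ c := by
  have hm' : (3 : ℝ) ≤ m := by exact_mod_cast hm
  have hc : ((m - 1 : ℕ) : ℝ) = (m : ℝ) - 1 := by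
    rw [Nat.cast_sub (by omega)]; simp
  rw [hc] at h
  have hpos : (0 : ℝ) < (m : ℝ) - 1 := by linarith
  have hlow : Real.log m - Real.log (3 / 2) ≤ Real.log ((m : ℝ) - 1) := by
    rw [← Real.log_div (by linarith) (by norm_num)]
    apply Real.log_le_log (by positivity)
    linarith
  have h4 : Real.log (4 * (m : ℝ)) = 2 * Real.log 2 + Real.log m := by
    rw [Real.log_mul (by norm_num) (by linarith)]
    have : (4 : ℝ) = 2 ^ 2 := by norm_num
    rw [this, Real.log_pow]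
    push_cast; ring
  have h32 : 0 ≤ Real.log (3 / 2) := Real.log_nonneg (by norm_num)
  have h5 : 1 / 2 * Real.log (4 * (m : ℝ)) - 1 - e * Real.log m ≤
      Real.log ((m : ℝ) - 1) * (1 / 2 - e) := by
    rw [h4]
    have h6 : (Real.log m - Real.log (3 / 2)) * (1 / 2 - e) ≤
        Real.log ((m : ℝ) - 1) * (1 / 2 - e) := mul_le_mul_of_nonneg_right hlow (by linarith)
    nlinarith [cna_log32, Real.log_two_lt_d9, mul_nonneg h32 he.le]
  rw [Real.rpow_def_of_pos hpos] at h
  have h7 : Real.exp (1 / 2 * Real.log (4 * (m : ℝ)) - 1 - e * Real.log m - G) * Real.exp G ≤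
      Real.exp G * c := by
    rw [← Real.exp_add]
    refine le_trans (Real.exp_le_exp.mpr ?_) h
    linarith
  have hG := Real.exp_pos G
  rw [mul_comm] at h7
  exact le_of_mul_le_mul_left h7 hG

private theorem cna_top {y : ℕ} {N Q e G c : ℝ} (hQ : 1 ≤ Q) (hN : Q ≤ N)
    (hy : N / Q / 6 ≤ y) (he : 0 < e) (he2 : e < 1 / 16)
    (h : (y : ℝ) ^ (1 / 2 - e) ≤ Real.exp G * c) :
    Real.exp (1 / 2 * Real.log N - 1 / 2 * Real.log Q - e * Real.log N - 1 - G) ≤ c := by
  have hQ0 : 0 < Q := by linarith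
  have hN0 : 0 < N := by linarith
  have hypos : (0 : ℝ) < y := lt_of_lt_of_le (by positivity) hy
  have hlow : Real.log N - Real.log Q - Real.log 6 ≤ Real.log (y : ℝ) := by
    rw [← Real.log_div hN0.ne' hQ0.ne', ← Real.log_div (by positivity) (by norm_num)]
    exact Real.log_le_log (by positivity) hy
  have hlQ : 0 ≤ Real.log Q := Real.log_nonneg hQ
  have h60 : 0 ≤ Real.log 6 := Real.log_nonneg (by norm_num)
  have h5 : 1 / 2 * Real.log N - 1 / 2 * Real.log Q - e * Real.log N - 1 ≤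
      Real.log (y : ℝ) * (1 / 2 - e) := by
    have h6 : (Real.log N - Real.log Q - Real.log 6) * (1 / 2 - e) ≤
        Real.log (y : ℝ) * (1 / 2 - e) := mul_le_mul_of_nonneg_right hlow (by linarith)
    nlinarith [cna_log6, mul_nonneg hlQ he.le, mul_nonneg h60 he.le]
  rw [Real.rpow_def_of_pos hypos] at h
  have h7 : Real.exp (1 / 2 * Real.log N - 1 / 2 * Real.log Q - e * Real.log N - 1 - G) *
      Real.exp G ≤ Real.exp G * c := by
    rw [← Real.exp_add]
    refine le_trans (Real.exp_le_exp.mpr ?_) h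
    linarith
  have hG := Real.exp_pos G
  rw [mul_comm] at h7
  exact le_of_mul_le_mul_left h7 hG

private theorem cna_prod {ε e : ℕ → ℝ} {M P T : ℕ → ℕ} {fin : ℕ → Prop} (S : Sel ε e M P T fin)
    {A : ℕ → Set ℕ} {K κ : ℝ} (he : ∀ k, 0 < e k) (he2 : ∀ k, e k < 1 / 16)
    (hA : ∀ k, ∀ y : ℕ, 2 ≤ y → (y : ℝ) ^ (1 / 2 - e k) ≤
        Real.exp (K * e k ^ (-(1 + κ))) * ((A k ∩ Set.Icc 1 y).ncard : ℝ))
    {j : ℕ} (hj : ∀ k < j, fin k) :
    Real.exp (1 / 2 * Real.log (P j) - ∑ k ∈ Finset.range j, (1 + K * e k ^ (-(1 + κ))) -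
      ∑ k ∈ Finset.range j, e k * Real.log (M k)) ≤
      ((∏ k ∈ Finset.range j, (FF A M k).ncard : ℕ) : ℝ) := by
  have h1 : ∀ k ∈ Finset.range j, Real.exp (1 / 2 * Real.log (4 * (M k : ℝ)) - 1 -
      e k * Real.log (M k) - K * e k ^ (-(1 + κ))) ≤ ((FF A M k).ncard : ℝ) := by
    intro k hk
    have hk' := Finset.mem_range.mp hk
    have hM := S.M3 k (hj k hk')
    apply cna_stage hM (he k) (he2 k)
    refine le_trans (hA k (M k - 1) (by omega)) ?_
    apply mul_le_mul_of_nonneg_left _ (Real.exp_pos _).le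
    have hsub : A k ∩ Set.Icc 1 (M k - 1) ⊆ FF A M k := by
      rintro x ⟨hx1, hx2⟩
      have := hx2.2
      exact ⟨hx1, by omega⟩
    have hfin : (FF A M k).Finite := (Set.finite_lt_nat (M k)).subset (fun x hx => hx.2)
    exact_mod_cast Set.ncard_le_ncard hsub hfin
  have h2 := Finset.prod_le_prod (s := Finset.range j) (fun k _ => (Real.exp_pos _).le) h1
  rw [← Real.exp_sum] at h2
  push_cast
  refine le_trans (le_of_eq ?_) h2
  congr 1
  rw [Finset.sum_sub_distrib, Finset.sum_sub_distrib, Finset.sum_sub_distrib, ← Finset.mul_sum,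
    (cna_log S j hj).2, Finset.sum_add_distrib]
  ring

/-- Module CNA.  `#(FF k) ≥ #(A k ∩ [1, M k - 1]) ≥ (M k - 1)^(1/2 - e k) / G k`,
`M k - 1 ≥ (2/3) M k`, so `log #(FF k) ≥ (1/2) log (4 M k) - 1 - e k log (M k) - K e_k^(-(1+κ))`.
`z = N / P j`.  If `j ≥ 1` and `z < 6`: `glue_count` with `j - 1` and `z' = 4 M (j-1)` gives
`count ≥ ∏ k<j, #(FF k)`.  Otherwise `z ≥ 6`, `y = min ((z-2)/2) (M j - 1)` (`y = (z-2)/2` if `M j = 0`)
satisfies `y ≥ 2` and `y ≥ (N / P j) / 6` (real quotient), `A j ∩ [1,y] ⊆ {x ∈ TT j | 2x+2 ≤ z}`, and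
`glue_count`.  `∑ k<j, log (4 M k) = log (P j)`, `PV M 0 j = P j`. -/
theorem cna {ε e : ℕ → ℝ} {M P T : ℕ → ℕ} {fin : ℕ → Prop} (S : Sel ε e M P T fin)
    {A : ℕ → Set ℕ} {K κ : ℝ} (hK : 0 ≤ K) (he : ∀ k, 0 < e k) (he2 : ∀ k, e k < 1 / 16)
    {R' R : ℕ → ℝ} (St : Stages (FF A M) (TT A M) M R' R)
    (hA : ∀ k, ∀ y : ℕ, 2 ≤ y → (y : ℝ) ^ (1 / 2 - e k) ≤
        Real.exp (K * e k ^ (-(1 + κ))) * ((A k ∩ Set.Icc 1 y).ncard : ℝ))
    {j N : ℕ} (hj : ∀ k < j, fin k) (hN6 : 6 ≤ N) (hN : P j ≤ N) (hN2 : fin j → N < P (j + 1)) :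
    Real.exp (1 / 2 * Real.log N - ∑ k ∈ Finset.range (j + 1), (4 + K * e k ^ (-(1 + κ))) -
        (∑ k ∈ Finset.range j, e k * Real.log (M k) + e j * Real.log N)) ≤
      (((⋃ m, glue (FF A M) (TT A M) M m 0) ∩ Set.Icc 1 N).ncard : ℝ) := by
  have hprod := cna_prod S he he2 hA hj
  obtain ⟨hPpos, hlogP⟩ := cna_log S j hj
  have hPr : (1 : ℝ) ≤ P j := by exact_mod_cast hPpos
  have hNr : (P j : ℝ) ≤ N := by exact_mod_cast hN
  have hlogN : 0 ≤ Real.log (N : ℝ) := Real.log_nonneg (by linarith)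
  have hsum : ∑ k ∈ Finset.range (j + 1), (4 + K * e k ^ (-(1 + κ))) =
      3 * ((j : ℝ) + 1) + ∑ k ∈ Finset.range j, (1 + K * e k ^ (-(1 + κ))) +
        (1 + K * e j ^ (-(1 + κ))) := by
    rw [Finset.sum_range_succ, Finset.sum_add_distrib, Finset.sum_add_distrib]
    simp only [Finset.sum_const, Finset.card_range, nsmul_eq_mul]
    ring
  have hKj : 0 ≤ K * e j ^ (-(1 + κ)) := mul_nonneg hK (Real.rpow_nonneg (he j).le _)
  have hjr : (0 : ℝ) ≤ j := Nat.cast_nonneg j
  by_cases hcase : N / P j < 6 ∧ 1 ≤ j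
  · obtain ⟨hz, hj1⟩ := hcase
    obtain ⟨i, rfl⟩ : ∃ i, j = i + 1 := ⟨j - 1, by omega⟩
    have hfi : fin i := hj i (by omega)
    have hMi := S.M3 i hfi
    have hN6' : N < 6 * P (i + 1) := by
      rw [mul_comm]
      exact (Nat.div_lt_iff_lt_mul hPpos).mp hz |>.trans_eq (by ring)
    have hgc := glue_count St i (4 * M i) N (by
      rw [cna_pv S, ← show P (i + 1) = P i * (4 * M i) by rw [S.Ps]; ring]
      exact hN)
    have hle : (FF A M i).ncard ≤ ({x ∈ TT A M i | 2 * x + 2 ≤ 4 * M i}).ncard := by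
      apply Set.ncard_le_ncard
      · intro x hx
        have hx2 := hx.2
        exact ⟨⟨hx.1, Or.inr hx.2⟩, by omega⟩
      · apply (Set.finite_lt_nat (2 * M i)).subset
        intro x hx
        have := hx.2
        show x < 2 * M i
        omega
    have hcount : (∏ k ∈ Finset.range (i + 1), (FF A M k).ncard) ≤
        ((⋃ m, glue (FF A M) (TT A M) M m 0) ∩ Set.Icc 1 N).ncard := by
      rw [Finset.prod_range_succ]
      exact le_trans (Nat.mul_le_mul_left _ hle) hgc
    have hcount' : ((∏ k ∈ Finset.range (i + 1), (FF A M k).ncard : ℕ) : ℝ) ≤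
        (((⋃ m, glue (FF A M) (TT A M) M m 0) ∩ Set.Icc 1 N).ncard : ℝ) := by
      exact_mod_cast hcount
    refine le_trans ?_ (le_trans hprod hcount')
    apply Real.exp_le_exp.mpr
    have hlN : Real.log (N : ℝ) ≤ Real.log 6 + Real.log (P (i + 1)) := by
      rw [← Real.log_mul (by norm_num) (by linarith)]
      apply Real.log_le_log (by linarith)
      have : (N : ℝ) < 6 * P (i + 1) := by exact_mod_cast hN6'
      linarith
    rw [hsum]
    have hejN : 0 ≤ e (i + 1) * Real.log N := mul_nonneg (he (i + 1)).le hlogN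
    linarith [cna_log6]
  · have hz6 : 6 ≤ N / P j := by
      by_contra hneg
      push Not at hneg
      have hj0 : j = 0 := by
        by_contra hj0
        exact hcase ⟨hneg, by omega⟩
      subst hj0
      rw [S.P0, Nat.div_one] at hneg
      omega
    set z := N / P j with hz
    have hzN : P j * z ≤ N := Nat.mul_div_le N (P j)
    have hNz : N < P j * (z + 1) := Nat.lt_mul_div_succ N hPpos
    have hNzr : (N : ℝ) < P j * (z + 1) := by exact_mod_cast hNz
    -- choice of y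
    obtain ⟨y, hy2, hyz, hyM, hyN⟩ : ∃ y : ℕ, 2 ≤ y ∧ 2 * y + 2 ≤ z ∧ (M j = 0 ∨ y < M j) ∧
        (N : ℝ) / P j / 6 ≤ y := by
      have hPp : (0 : ℝ) < P j := by linarith
      by_cases hM0 : (z - 2) / 2 < M j ∨ M j = 0
      · refine ⟨(z - 2) / 2, by omega, by omega, by tauto, ?_⟩
        have h1 : (N : ℝ) / P j ≤ z + 1 := by
          rw [div_le_iff₀ hPp]
          linarith
        have h2 : z + 1 ≤ 6 * ((z - 2) / 2) := by omega
        have h3 : (z : ℝ) + 1 ≤ 6 * (((z - 2) / 2 : ℕ) : ℝ) := by exact_mod_cast h2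
        linarith
      · push Not at hM0
        obtain ⟨hM1, hM2⟩ := hM0
        have hfj : fin j := by
          by_contra hnf
          exact hM2 (S.Mf j hnf)
        have hM3 := S.M3 j hfj
        have hNlt := hN2 hfj
        rw [S.Ps] at hNlt
        refine ⟨M j - 1, by omega, by omega, Or.inr (by omega), ?_⟩
        have hNlt' : (N : ℝ) < 4 * M j * P j := by exact_mod_cast hNlt
        have h1 : (N : ℝ) / P j ≤ 4 * M j := by
          rw [div_le_iff₀ hPp]
          linarith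
        have h2 : 4 * M j ≤ 6 * (M j - 1) := by omega
        have h3 : 4 * (M j : ℝ) ≤ 6 * ((M j - 1 : ℕ) : ℝ) := by exact_mod_cast h2
        linarith
    have hgc := glue_count St j z N (by rw [cna_pv S]; exact hzN)
    have hle : (A j ∩ Set.Icc 1 y).ncard ≤ ({x ∈ TT A M j | 2 * x + 2 ≤ z}).ncard := by
      apply Set.ncard_le_ncard
      · rintro x ⟨hx1, hx2⟩
        have hx3 := hx2.2
        refine ⟨⟨hx1, ?_⟩, by omega⟩
        rcases hyM with h | h
        · exact Or.inl h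
        · exact Or.inr (by omega)
      · apply (Set.finite_lt_nat z).subset
        intro x hx
        have := hx.2
        show x < z
        omega
    have htop : Real.exp (1 / 2 * Real.log N - 1 / 2 * Real.log (P j) - e j * Real.log N - 1 -
        K * e j ^ (-(1 + κ))) ≤ (({x ∈ TT A M j | 2 * x + 2 ≤ z}).ncard : ℝ) := by
      apply cna_top hPr hNr hyN (he j) (he2 j)
      refine le_trans (hA j y hy2) ?_
      apply mul_le_mul_of_nonneg_left _ (Real.exp_pos _).le
      exact_mod_cast hle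
    have hcount' : ((∏ k ∈ Finset.range j, (FF A M k).ncard : ℕ) : ℝ) *
        (({x ∈ TT A M j | 2 * x + 2 ≤ z}).ncard : ℝ) ≤
        (((⋃ m, glue (FF A M) (TT A M) M m 0) ∩ Set.Icc 1 N).ncard : ℝ) := by
      exact_mod_cast hgc
    refine le_trans ?_ hcount'
    refine le_trans ?_ (mul_le_mul hprod htop (Real.exp_pos _).le (Nat.cast_nonneg _))
    rw [← Real.exp_add]
    apply Real.exp_le_exp.mpr
    rw [hsum]
    linarith

end Pool.Agent.B2v
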