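import Pool.Agent.B2v.Prm

/-! Module CNB (MP_491344_nt, variable density): the losses. -/

namespace Pool.Agent.B2v

theorem Sel.T17' {ε e : ℕ → ℝ} {M P T : ℕ → ℕ} {fin : ℕ → Prop} (S : Sel ε e M P T fin) {k : ℕ}
    (hk : fin k) : 17 ≤ T k := by
  have h1 := S.T17 k hk
  have h2 : 17 ^ 1 ≤ 17 ^ (4 ^ k) := Nat.pow_le_pow_right (by norm_num) (Nat.one_le_pow _ _ (by norm_num))
  omega

theorem Sel.Ppos {ε e : ℕ → ℝ} {M P T : ℕ → ℕ} {fin : ℕ → Prop} (S : Sel ε e M P T fin) :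
    ∀ j, (∀ k < j, fin k) → 1 ≤ P j := by
  intro j
  induction j with
  | zero => intro _; rw [S.P0]
  | succ j ih =>
    intro h
    rw [S.Ps]
    have h1 := S.M3 j (h j (Nat.lt_succ_self j))
    have h2 := ih (fun k hk => h k (by omega))
    exact Nat.mul_pos (by omega) (by omega)

theorem Sel.Pmono {ε e : ℕ → ℝ} {M P T : ℕ → ℕ} {fin : ℕ → Prop} (S : Sel ε e M P T fin)
    {i j : ℕ} (hij : i ≤ j) (h : ∀ k < j, fin k) : P i ≤ P j := by
  induction j, hij using Nat.le_induction with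
  | base => exact le_rfl
  | succ j hj ih =>
    have h1 := ih (fun k hk => h k (by omega))
    have h2 := S.M3 j (h j (Nat.lt_succ_self j))
    rw [S.Ps]
    exact h1.trans (Nat.le_mul_of_pos_left _ (by omega))

/-- one term -/
private theorem cnb_term {ε e : ℕ → ℝ} {δ : ℝ} (H : Prm ε δ) {M P T : ℕ → ℕ} {fin : ℕ → Prop}
    (S : Sel ε e M P T fin) {k N x : ℕ} (hk : fin k) (hN : T k ≤ N) (hx1 : 1 ≤ x)
    (hx : x ≤ T k ^ 2) :
    e k * Real.log x ≤ (1 / 2) ^ (k + 4) * (ε N * Real.log N) := by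
  have hT := S.T17' hk
  have h1 := S.Tlt k (T k - 1) (by omega) (fun _ => by omega)
  have hN0 : (0 : ℝ) < (T k - 1 : ℕ) := by
    have : 0 < T k - 1 := by omega
    exact_mod_cast this
  have hlx : Real.log x ≤ 4 * Real.log ((T k - 1 : ℕ) : ℝ) := by
    have h2 : (x : ℝ) ≤ ((T k - 1 : ℕ) : ℝ) ^ 4 := by
      have h3 : x ≤ (T k - 1) ^ 4 := by
        have h4 : T k ≤ (T k - 1) ^ 2 := by
          obtain ⟨t, ht⟩ : ∃ t, T k = t + 2 := ⟨T k - 2, by omega⟩
          rw [ht]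
          have : t + 2 - 1 = t + 1 := by omega
          rw [this]
          nlinarith
        calc x ≤ T k ^ 2 := hx
          _ ≤ ((T k - 1) ^ 2) ^ 2 := Nat.pow_le_pow_left h4 2
          _ = (T k - 1) ^ 4 := by rw [← pow_mul]
      exact_mod_cast h3
    calc Real.log x ≤ Real.log (((T k - 1 : ℕ) : ℝ) ^ 4) :=
          Real.log_le_log (by exact_mod_cast hx1) h2
      _ = 4 * Real.log ((T k - 1 : ℕ) : ℝ) := by rw [Real.log_pow]; norm_num
  have hlog0 : 0 ≤ Real.log ((T k - 1 : ℕ) : ℝ) :=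
    Real.log_nonneg (by exact_mod_cast (by omega : 1 ≤ T k - 1))
  have hlx0 : 0 ≤ Real.log (x : ℝ) := Real.log_nonneg (by exact_mod_cast hx1)
  have hG := H.gam (T k - 1) N (by omega) (by omega)
  have h2p : (0 : ℝ) < 2 ^ (k + 6) := by positivity
  have he : e k ≤ ε (T k - 1) / 2 ^ (k + 6) := by
    rw [le_div_iff₀ h2p]
    linarith
  have hεp : 0 < ε (T k - 1) := H.pos _ (by omega)
  calc e k * Real.log x ≤ ε (T k - 1) / 2 ^ (k + 6) * Real.log x :=
        mul_le_mul_of_nonneg_right he hlx0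
    _ ≤ ε (T k - 1) / 2 ^ (k + 6) * (4 * Real.log ((T k - 1 : ℕ) : ℝ)) :=
        mul_le_mul_of_nonneg_left hlx (by positivity)
    _ = (1 / 2) ^ (k + 4) * (ε (T k - 1) * Real.log ((T k - 1 : ℕ) : ℝ)) := by
        have e1 : (1 / 2 : ℝ) ^ (k + 4) = 4 / 2 ^ (k + 6) := by
          have e2 : (2 : ℝ) ^ (k + 6) = 4 * 2 ^ (k + 4) := by
            rw [show k + 6 = (k + 4) + 2 by ring, pow_add]; ring
          rw [e2, div_pow, one_pow]
          field_simp
        rw [e1]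
        ring
    _ ≤ _ := mul_le_mul_of_nonneg_left hG (by positivity)

/-- Module CNB.  `Γ N = ε N log N` is nondecreasing.  For `fin k`, `T = T k ≥ 17`:
`e k ≤ 2^(-(k+6)) ε (T - 1)`, `log (M k) ≤ log (P (k+1)) ≤ 2 log T ≤ 4 log (T - 1)`, so
`e k log (M k) ≤ 2^(-(k+4)) Γ (T - 1) ≤ 2^(-(k+4)) Γ N` for `k < j` (`T k ≤ P (k+1) ≤ P j ≤ N`).
For `j`: if not (`fin j` and `T j ≤ N`) then `e j ≤ 2^(-(j+6)) ε N`; otherwise `N < P (j+1) ≤ (T j)^2` and
`e j log N ≤ 2 e j log (T j) ≤ 2^(-(j+4)) Γ N`.  The sum of the `2^(-(k+4))` is at most `1/8`. -/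
theorem cnb {ε e : ℕ → ℝ} {δ : ℝ} (H : Prm ε δ) {M P T : ℕ → ℕ} {fin : ℕ → Prop}
    (S : Sel ε e M P T fin) (he : ∀ k, 0 < e k)
    {j N : ℕ} (hj : ∀ k < j, fin k) (hN6 : 6 ≤ N) (hN : P j ≤ N) (hN2 : fin j → N < P (j + 1)) :
    ∑ k ∈ Finset.range j, e k * Real.log (M k) + e j * Real.log N ≤
      1 / 8 * (ε N * Real.log N) := by
  have hlogN : 0 ≤ Real.log (N : ℝ) := Real.log_nonneg (by exact_mod_cast (by omega : 1 ≤ N))
  have hεN : 0 < ε N := H.pos N (by omega)
  have hΓ : 0 ≤ ε N * Real.log N := by positivity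
  have h1 : ∀ k ∈ Finset.range j, e k * Real.log (M k) ≤
      (1 / 2) ^ (k + 4) * (ε N * Real.log N) := by
    intro k hk
    rw [Finset.mem_range] at hk
    have hf := hj k hk
    have hM := S.M3 k hf
    have hP1 := S.Ppos k (fun i hi => hj i (by omega))
    refine cnb_term H S hf ?_ (by omega) ?_
    · exact (S.TP k hf).trans ((S.Pmono (i := k + 1) (by omega) hj).trans hN)
    · refine le_trans ?_ (S.PT k hf)
      rw [S.Ps]
      calc M k = M k * 1 := by ring
        _ ≤ (4 * M k) * P k := Nat.mul_le_mul (by omega) hP1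
  have h2 : e j * Real.log N ≤ (1 / 2) ^ (j + 4) * (ε N * Real.log N) := by
    by_cases hc : fin j ∧ T j ≤ N
    · have h3 := hN2 hc.1
      exact cnb_term H S hc.1 hc.2 (by omega) (h3.le.trans (S.PT j hc.1))
    · have h3 := S.Tlt j N (by omega) (fun hf => by
        by_contra h4
        push Not at h4
        exact hc ⟨hf, h4⟩)
      have h2p : (0 : ℝ) < 2 ^ (j + 6) := by positivity
      have h4 : e j ≤ ε N / 2 ^ (j + 6) := by
        rw [le_div_iff₀ h2p]
        linarith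
      calc e j * Real.log N ≤ ε N / 2 ^ (j + 6) * Real.log N :=
            mul_le_mul_of_nonneg_right h4 hlogN
        _ = (1 / 2) ^ (j + 6) * (ε N * Real.log N) := by
          rw [div_pow, one_pow]; ring
        _ ≤ (1 / 2) ^ (j + 4) * (ε N * Real.log N) := by
          refine mul_le_mul_of_nonneg_right ?_ hΓ
          exact pow_le_pow_of_le_one (by norm_num) (by norm_num) (by omega)
  have h3 : ∀ m : ℕ, ∑ k ∈ Finset.range m, (1 / 2 : ℝ) ^ (k + 4) = 1 / 8 - (1 / 2) ^ (m + 3) := by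
    intro m
    induction m with
    | zero => norm_num
    | succ m ih =>
      rw [Finset.sum_range_succ, ih, show m + 1 + 3 = m + 4 by ring, show m + 4 = (m + 3) + 1 by ring,
        pow_succ]
      ring
  calc ∑ k ∈ Finset.range j, e k * Real.log (M k) + e j * Real.log N
      ≤ ∑ k ∈ Finset.range j, (1 / 2) ^ (k + 4) * (ε N * Real.log N) +
        (1 / 2) ^ (j + 4) * (ε N * Real.log N) := add_le_add (Finset.sum_le_sum h1) h2
    _ = (∑ k ∈ Finset.range (j + 1), (1 / 2 : ℝ) ^ (k + 4)) * (ε N * Real.log N) := by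
        rw [Finset.sum_range_succ, ← Finset.sum_mul, add_mul]
    _ ≤ 1 / 8 * (ε N * Real.log N) := by
        rw [h3]
        refine mul_le_mul_of_nonneg_right ?_ hΓ
        have : (0 : ℝ) ≤ (1 / 2) ^ (j + 1 + 3) := by positivity
        linarith

end Pool.Agent.B2v
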