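import Pool.Agent.B2v.Prm

/-! Module CNC (MP_491344_nt, variable density): the granularity losses. -/

namespace Pool.Agent.B2v

private theorem cnc_ee {δ l0 : ℝ} (k : ℕ) :
    ee δ l0 k ^ (-(1 + δ)) = Real.exp (l0 * (1 + δ) ^ (k + 1)) := by
  unfold ee
  rw [← Real.exp_mul]
  congr 1
  ring

private theorem cnc_sum {δ l0 K : ℝ} (hδ : 0 < δ) (hl : 0 < l0) (hK : 0 ≤ K) (j : ℕ) :
    ∑ k ∈ Finset.range (j + 1), (4 + K * ee δ l0 k ^ (-(1 + δ))) ≤
      (j + 1 : ℝ) * ((4 + K) * Real.exp (l0 * (1 + δ) ^ (j + 1))) := by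
  have h : ∀ k ∈ Finset.range (j + 1), (4 + K * ee δ l0 k ^ (-(1 + δ))) ≤
      (4 + K) * Real.exp (l0 * (1 + δ) ^ (j + 1)) := by
    intro k hk
    rw [cnc_ee]
    have h1 : Real.exp (l0 * (1 + δ) ^ (k + 1)) ≤ Real.exp (l0 * (1 + δ) ^ (j + 1)) := by
      apply Real.exp_le_exp.mpr
      apply mul_le_mul_of_nonneg_left _ hl.le
      apply pow_le_pow_right₀ (by linarith)
      have := Finset.mem_range.mp hk
      omega
    have h2 : 1 ≤ Real.exp (l0 * (1 + δ) ^ (j + 1)) := Real.one_le_exp (by positivity)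
    nlinarith [mul_le_mul_of_nonneg_left h1 hK]
  calc _ ≤ ∑ k ∈ Finset.range (j + 1), (4 + K) * Real.exp (l0 * (1 + δ) ^ (j + 1)) :=
        Finset.sum_le_sum h
    _ = _ := by
        rw [Finset.sum_const, Finset.card_range, nsmul_eq_mul]
        push_cast
        ring

private theorem cnc_ev {δ l0 K : ℝ} (hδ : 0 < δ) (hl : 0 < l0) (hK : 0 ≤ K) :
    ∃ m0 : ℕ, ∀ m : ℕ, m0 ≤ m → Real.log (2 * ((m : ℝ) + 2) * (4 + K)) +
      3 * ((m : ℝ) + 6) * Real.log 2 ≤ (3 * δ / 2) * (l0 * (1 + δ) ^ m) := by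
  have h1 := tendsto_pow_const_div_const_pow_of_one_lt 1 (r := 1 + δ) (by linarith)
  have h0 := tendsto_pow_const_div_const_pow_of_one_lt 0 (r := 1 + δ) (by linarith)
  have hl2 : 0 < Real.log 2 := Real.log_pos (by norm_num)
  have h2 := (h1.const_mul (2 * (4 + K) + 3 * Real.log 2)).add
    (h0.const_mul (4 * (4 + K) + 18 * Real.log 2))
  simp only [mul_zero, add_zero] at h2
  have h3 : (0 : ℝ) < 3 * δ / 2 * l0 := by positivity
  have h4 := (h2.eventually (gt_mem_nhds h3)).exists_forall_of_atTop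
  obtain ⟨m0, hm0⟩ := h4
  refine ⟨m0, fun m hm => ?_⟩
  have h5 := hm0 m hm
  have hq : (0 : ℝ) < (1 + δ) ^ m := by positivity
  have h6 : (2 * (4 + K) + 3 * Real.log 2) * ((m : ℝ) ^ 1 / (1 + δ) ^ m) +
      (4 * (4 + K) + 18 * Real.log 2) * ((m : ℝ) ^ 0 / (1 + δ) ^ m) =
      ((2 * (4 + K) + 3 * Real.log 2) * m + (4 * (4 + K) + 18 * Real.log 2)) / (1 + δ) ^ m := by
    rw [pow_one, pow_zero]
    ring
  rw [h6, div_lt_iff₀ hq] at h5
  have h7 : Real.log (2 * ((m : ℝ) + 2) * (4 + K)) ≤ 2 * ((m : ℝ) + 2) * (4 + K) := by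
    have : (0 : ℝ) < 2 * ((m : ℝ) + 2) * (4 + K) := by positivity
    linarith [Real.log_le_sub_one_of_pos this]
  nlinarith

private theorem cnc_big {L E X δ K : ℝ} {m : ℕ} (hL : 0 < L) (hX : 0 < X) (hδ : 0 < δ)
    (hδ2 : δ < 1 / 2) (hK : 0 ≤ K)
    (h1 : L ^ (-(1 / 2) + δ) ≤ E) (h2 : E < 2 ^ (m + 6) * Real.exp (-X))
    (h3 : Real.log (2 * ((m : ℝ) + 2) * (4 + K)) + 3 * ((m : ℝ) + 6) * Real.log 2 ≤
      (3 * δ / 2) * X) :
    ((m : ℝ) + 2) * ((4 + K) * Real.exp (X * (1 + δ) ^ 2)) ≤ 1 / 2 * (E * L) := by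
  have hl2 : 0 < Real.log 2 := Real.log_pos (by norm_num)
  have hm : (0 : ℝ) ≤ m := Nat.cast_nonneg m
  have hc1 : (1 : ℝ) ≤ 2 * ((m : ℝ) + 2) * (4 + K) := by nlinarith
  have hlc : 0 ≤ Real.log (2 * ((m : ℝ) + 2) * (4 + K)) := Real.log_nonneg hc1
  have h4 : (2 : ℝ) ^ (m + 6) * Real.exp (-X) = Real.exp (((m : ℝ) + 6) * Real.log 2 - X) := by
    rw [sub_eq_add_neg, Real.exp_add]
    congr 1
    rw [mul_comm, Real.exp_mul, Real.exp_log (by norm_num)]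
    have : ((m : ℝ) + 6) = ((m + 6 : ℕ) : ℝ) := by push_cast; ring
    rw [this, Real.rpow_natCast]
  have h5 : L ^ (-(1 / 2) + δ) = Real.exp (Real.log L * (-(1 / 2) + δ)) :=
    Real.rpow_def_of_pos hL _
  have h6 : Real.log L * (-(1 / 2) + δ) < ((m : ℝ) + 6) * Real.log 2 - X := by
    apply Real.exp_lt_exp.mp
    rw [← h5, ← h4]
    exact lt_of_le_of_lt h1 h2
  have hY : 0 ≤ X - ((m : ℝ) + 6) * Real.log 2 := by
    have : (3 * δ / 2) * X ≤ X := by nlinarith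
    nlinarith [mul_nonneg (add_nonneg hm (by norm_num : (0 : ℝ) ≤ 6)) hl2.le]
  have hlL : 0 ≤ Real.log L := by
    by_contra hneg
    push Not at hneg
    nlinarith
  have h7 : (1 + 4 * δ) * (X - ((m : ℝ) + 6) * Real.log 2) ≤ Real.log L * (1 / 2 + δ) := by
    have h71 : (1 + 4 * δ) * (X - ((m : ℝ) + 6) * Real.log 2) ≤
        (1 + 4 * δ) * (Real.log L * (1 / 2 - δ)) := by
      apply mul_le_mul_of_nonneg_left _ (by linarith)
      nlinarith
    nlinarith [mul_nonneg hlL (sq_nonneg δ)]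
  have h8 : Real.exp ((1 + 4 * δ) * (X - ((m : ℝ) + 6) * Real.log 2)) ≤ E * L := by
    calc Real.exp ((1 + 4 * δ) * (X - ((m : ℝ) + 6) * Real.log 2))
        ≤ Real.exp (Real.log L * (1 / 2 + δ)) := Real.exp_le_exp.mpr h7
      _ = L ^ (-(1 / 2) + δ) * L := by
          rw [← Real.rpow_def_of_pos hL, ← Real.rpow_add_one hL.ne']
          congr 1
          ring
      _ ≤ E * L := mul_le_mul_of_nonneg_right h1 hL.le
  have h9 : 2 * ((m : ℝ) + 2) * (4 + K) * Real.exp (X * (1 + δ) ^ 2) ≤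
      Real.exp ((1 + 4 * δ) * (X - ((m : ℝ) + 6) * Real.log 2)) := by
    have h91 : 2 * ((m : ℝ) + 2) * (4 + K) = Real.exp (Real.log (2 * ((m : ℝ) + 2) * (4 + K))) :=
      (Real.exp_log (by linarith)).symm
    rw [h91, ← Real.exp_add]
    apply Real.exp_le_exp.mpr
    have h92 : X * (1 + δ) ^ 2 ≤ X * (1 + 5 * δ / 2) := by
      apply mul_le_mul_of_nonneg_left _ hX.le
      nlinarith
    have h93 : (1 + 4 * δ) * (((m : ℝ) + 6) * Real.log 2) ≤ 3 * (((m : ℝ) + 6) * Real.log 2) := by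
      apply mul_le_mul_of_nonneg_right (by linarith)
      positivity
    nlinarith
  nlinarith

/-- Module CNC.  `e k = ee δ l0 k`.  The sum is at most `(j+1) (4 + K) e_j^(-(1+δ))`.
For bounded `j` use `Γ N = ε N log N ≥ (log N)^(1/2+δ) → ∞`.  For large `j`: `T = T (j-1) ≥ 17^(4^(j-1))`
is `≥ N1`, `(log T)^(-(1/2-δ)) ≤ ε T < 2^(j+5) e_(j-1) < 1`, so
`Γ N ≥ Γ T ≥ (log T)^(1/2+δ) ≥ (2^(j+5) e_(j-1))^(-(1/2+δ)/(1/2-δ)) ≥ (2^(j+5) e_(j-1))^(-(1+4δ))`,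
while `e_j^(-(1+δ)) = e_(j-1)^(-(1+δ)^2) ≤ e_(j-1)^(-(1+5δ/2))`; and
`2 (j+1) (4+K) 2^(3(j+5)) ≤ e_(j-1)^(-3δ/2) = exp (3/2 δ l0 (1+δ)^(j-1))` for large `j`. -/
theorem cnc {ε : ℕ → ℝ} {δ l0 K : ℝ} (H : Prm ε δ) (hδ : 0 < δ) (hδ2 : δ < 1 / 2) (hl : 0 < l0)
    (hK : 0 ≤ K) {M P T : ℕ → ℕ} {fin : ℕ → Prop} (S : Sel ε (ee δ l0) M P T fin) :
    ∃ N0 : ℕ, ∀ N j : ℕ, N0 ≤ N → (∀ k < j, fin k) → P j ≤ N →
      ∑ k ∈ Finset.range (j + 1), (4 + K * ee δ l0 k ^ (-(1 + δ))) ≤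
        1 / 2 * (ε N * Real.log N) := by
  obtain ⟨m0, hm0⟩ := cnc_ev (δ := δ) (l0 := l0) (K := K) hδ hl hK
  obtain ⟨N1, hN1⟩ := H.low
  set J := max m0 N1 with hJ
  -- small j
  have hlim : Filter.Tendsto (fun N : ℕ => (Real.log (N : ℝ)) ^ (1 / 2 + δ)) Filter.atTop
      Filter.atTop :=
    (tendsto_rpow_atTop (by linarith : 0 < 1 / 2 + δ)).comp
      (Real.tendsto_log_atTop.comp tendsto_natCast_atTop_atTop)
  obtain ⟨N2, hN2⟩ := (hlim.eventually_ge_atTop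
    (2 * ∑ k ∈ Finset.range (J + 1), (4 + K * ee δ l0 k ^ (-(1 + δ))))).exists_forall_of_atTop
  refine ⟨max 2 (max N1 N2), fun N j hN hj hP => ?_⟩
  have hN2' : 2 ≤ N := le_trans (le_max_left _ _) hN
  have hNN1 : N1 ≤ N := le_trans (le_trans (le_max_left _ _) (le_max_right _ _)) hN
  have hNN2 : N2 ≤ N := le_trans (le_trans (le_max_right _ _) (le_max_right _ _)) hN
  rcases Nat.lt_or_ge J j with hcase | hcase
  · -- large j
    obtain ⟨m, rfl⟩ : ∃ m, j = m + 1 := ⟨j - 1, by omega⟩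
    have hfm : fin m := hj m (by omega)
    have hmJ : J ≤ m := by omega
    have hmm0 : m0 ≤ m := le_trans (le_max_left _ _) hmJ
    have hmN1 : N1 ≤ m := le_trans (le_max_right _ _) hmJ
    have hT17 := S.T17 m hfm
    have hTm : m < T m := by
      have h1 : m < 4 ^ m := Nat.lt_pow_self (by norm_num)
      have h2 : 4 ^ m < 17 ^ (4 ^ m) := Nat.lt_pow_self (by norm_num)
      omega
    have hT2 : 2 ≤ T m := by
      have h1 : 17 ^ 1 ≤ 17 ^ (4 ^ m) := Nat.pow_le_pow_right (by norm_num)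
        (Nat.one_le_pow _ _ (by norm_num))
      omega
    have hTN : T m ≤ N := le_trans (S.TP m hfm) hP
    have hlow := hN1 (T m) (by omega)
    have hup := S.Teps m hfm
    have hL : 0 < Real.log (T m : ℝ) := Real.log_pos (by exact_mod_cast hT2)
    have hX : 0 < l0 * (1 + δ) ^ m := by positivity
    have hb := cnc_big (L := Real.log (T m : ℝ)) (E := ε (T m)) (X := l0 * (1 + δ) ^ m) (δ := δ)
      (K := K) (m := m) hL hX hδ hδ2 hK hlow hup (hm0 m hmm0)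
    have hs := cnc_sum (δ := δ) (l0 := l0) (K := K) hδ hl hK (m + 1)
    have hg := H.gam (T m) N hT2 hTN
    have he : l0 * (1 + δ) ^ (m + 1 + 1) = l0 * (1 + δ) ^ m * (1 + δ) ^ 2 := by ring
    rw [he] at hs
    have hc : ((m + 1 : ℕ) : ℝ) + 1 = (m : ℝ) + 2 := by push_cast; ring
    rw [hc] at hs
    linarith
  · -- small j
    have h1 : ∑ k ∈ Finset.range (j + 1), (4 + K * ee δ l0 k ^ (-(1 + δ))) ≤
        ∑ k ∈ Finset.range (J + 1), (4 + K * ee δ l0 k ^ (-(1 + δ))) := by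
      apply Finset.sum_le_sum_of_subset_of_nonneg
      · intro k hk
        have := Finset.mem_range.mp hk
        exact Finset.mem_range.mpr (by omega)
      · intro k _ _
        rw [cnc_ee]
        positivity
    have h2 := hN2 N hNN2
    have hL : 0 < Real.log (N : ℝ) := Real.log_pos (by exact_mod_cast hN2')
    have h3 : (Real.log (N : ℝ)) ^ (1 / 2 + δ) ≤ ε N * Real.log N := by
      calc (Real.log (N : ℝ)) ^ (1 / 2 + δ) = (Real.log (N : ℝ)) ^ (-(1 / 2) + δ) * Real.log N := by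
            rw [← Real.rpow_add_one hL.ne']
            congr 1
            ring
        _ ≤ _ := mul_le_mul_of_nonneg_right (hN1 N hNN1) hL.le
    linarith

end Pool.Agent.B2v
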