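import Pool.Agent.B2v.Fam2
import Pool.Agent.B2g.Del

/-! Module DEL2 (MP_491344_nt, variable density): `deletion` without a lower bound for the scale. -/

namespace Pool.Agent.B2v

open Pool.Agent.B2g

/-- the additive loss (in positions) -/
def KK (ν : ℕ) : ℕ := 16 * st ν (m0 ν) + 16

variable {p ν : ℕ} [Fact p.Prime]

/-- Module DEL2. -/
theorem deletion2 (hν : 3 ≤ ν) {J : ℕ} (hJ2 : 2 ≤ J) (hp : 2 ^ (40 * 4 ^ ν) ≤ p)
    (hJ : (J + 1) ^ 2 ≤ p) (hp2 : 2 ^ ν * (5 + J * (2 * ν + 4)) ≤ p) :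
    ∃ X : ℕ → Set (V p),
      (∀ D, ∀ a ∈ X D, ∀ i, D ≤ i → a i = 0) ∧
      (∀ D, (X D).Finite ∧
        ∃ l, p ^ l ≤ 2 * (X D).ncard ∧ l ≤ D ∧
          (D - l ≤ KK ν ∨ (D - l) * (2 ^ ν) ^ J ≤ 2 ^ J * D)) ∧
      (∀ D D', D ≤ D' → Cross (X D) (X D') (RR ν J)) := by
  classical
  obtain ⟨𝒜, hsupp, hcard, hcross, hdiff⟩ := family2 hν hp hJ hp2
  set Bad : ℕ → Set (V p) := fun D => {b | b ∈ 𝒜 D ∧ ∃ E, 4 * E ≤ D ∧
    ∃ a ∈ 𝒜 E, ∃ a' ∈ 𝒜 E, a - a' ≠ 0 ∧ b - (a - a') ∈ 𝒜 D} with hBad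
  have hppos : 0 < p := (Fact.out : p.Prime).pos
  have hp16 : 2 ^ 16 ≤ p := by
    refine le_trans (Nat.pow_le_pow_right (by norm_num) ?_) hp
    have : 1 ≤ 4 ^ ν := Nat.one_le_pow _ _ (by norm_num)
    omega
  -- the bound for the bad set
  have hbad : ∀ D, (Bad D).encard ≤
      (((D + 1) * (p ^ (D / 4) * p ^ (D / 4) * p ^ (D / 4)) : ℕ) : ℕ∞) := by
    intro D
    have hsub : Bad D ⊆ ⋃ E ∈ Finset.range (D / 4 + 1), ⋃ q ∈
        ((hcard E).1.toFinset ×ˢ (hcard E).1.toFinset : Finset (V p × V p)),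
        (if q.1 - q.2 ≠ 0 then {b | b ∈ 𝒜 D ∧ b - (q.1 - q.2) ∈ 𝒜 D} else ∅ : Set (V p)) := by
      rintro b ⟨hb, E, hED, a, ha, a', ha', hne, hba⟩
      simp only [Set.mem_iUnion]
      refine ⟨E, Finset.mem_range.2 (by omega), (a, a'), ?_, ?_⟩
      · rw [Finset.mem_product]
        exact ⟨(hcard E).1.mem_toFinset.2 ha, (hcard E).1.mem_toFinset.2 ha'⟩
      · rw [if_pos hne]
        exact ⟨hb, hba⟩
    refine (Set.encard_le_encard hsub).trans ?_
    have hone : ∀ E ∈ Finset.range (D / 4 + 1), (⋃ q ∈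
        ((hcard E).1.toFinset ×ˢ (hcard E).1.toFinset : Finset (V p × V p)),
        (if q.1 - q.2 ≠ 0 then {b | b ∈ 𝒜 D ∧ b - (q.1 - q.2) ∈ 𝒜 D} else ∅ :
          Set (V p))).encard ≤ ((p ^ (D / 4) * p ^ (D / 4) * p ^ (D / 4) : ℕ) : ℕ∞) := by
      intro E hE
      have hE4 : E ≤ D / 4 := by
        have := Finset.mem_range.1 hE
        omega
      set F := (hcard E).1.toFinset with hF
      have hFcard : F.card ≤ p ^ (D / 4) := by
        obtain ⟨l, hl1, hl2, -⟩ := (hcard E).2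
        have : F.card = (𝒜 E).ncard := (Set.ncard_eq_toFinset_card _ (hcard E).1).symm
        rw [this, hl1]
        exact Nat.pow_le_pow_right hppos (hl2.trans hE4)
      have hq : ∀ q ∈ F ×ˢ F,
          (if q.1 - q.2 ≠ 0 then {b | b ∈ 𝒜 D ∧ b - (q.1 - q.2) ∈ 𝒜 D} else ∅ :
            Set (V p)).encard ≤ ((p ^ (D / 4) : ℕ) : ℕ∞) := by
        intro q hq
        rw [Finset.mem_product] at hq
        split_ifs with hne
        · refine hdiff D E (by omega) _ hne ?_
          intro i hi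
          have h1 := hsupp E q.1 ((hcard E).1.mem_toFinset.1 hq.1) i hi
          have h2 := hsupp E q.2 ((hcard E).1.mem_toFinset.1 hq.2) i hi
          rw [Pi.sub_apply, h1, h2, sub_zero]
        · simp
      calc (⋃ q ∈ F ×ˢ F, (if q.1 - q.2 ≠ 0 then {b | b ∈ 𝒜 D ∧ b - (q.1 - q.2) ∈ 𝒜 D} else ∅ :
            Set (V p))).encard
          ≤ ∑ q ∈ F ×ˢ F, (if q.1 - q.2 ≠ 0 then {b | b ∈ 𝒜 D ∧ b - (q.1 - q.2) ∈ 𝒜 D} else ∅ :
            Set (V p)).encard := by
            generalize F ×ˢ F = FF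
            induction FF using Finset.induction_on with
            | empty => simp
            | insert q s hqs ih =>
              rw [Finset.set_biUnion_insert, Finset.sum_insert hqs]
              exact (Set.encard_union_le _ _).trans (add_le_add le_rfl ih)
        _ ≤ ∑ q ∈ F ×ˢ F, ((p ^ (D / 4) : ℕ) : ℕ∞) := Finset.sum_le_sum hq
        _ = (((F.card * F.card) * p ^ (D / 4) : ℕ) : ℕ∞) := by
            rw [Finset.sum_const, Finset.card_product, nsmul_eq_mul]
            push_cast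
            rfl
        _ ≤ ((p ^ (D / 4) * p ^ (D / 4) * p ^ (D / 4) : ℕ) : ℕ∞) := by
            exact_mod_cast Nat.mul_le_mul_right _ (Nat.mul_le_mul hFcard hFcard)
    calc (⋃ E ∈ Finset.range (D / 4 + 1), ⋃ q ∈
        ((hcard E).1.toFinset ×ˢ (hcard E).1.toFinset : Finset (V p × V p)),
        (if q.1 - q.2 ≠ 0 then {b | b ∈ 𝒜 D ∧ b - (q.1 - q.2) ∈ 𝒜 D} else ∅ :
          Set (V p))).encard
        ≤ ∑ E ∈ Finset.range (D / 4 + 1), (⋃ q ∈
        ((hcard E).1.toFinset ×ˢ (hcard E).1.toFinset : Finset (V p × V p)),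
        (if q.1 - q.2 ≠ 0 then {b | b ∈ 𝒜 D ∧ b - (q.1 - q.2) ∈ 𝒜 D} else ∅ :
          Set (V p))).encard := by
          generalize Finset.range (D / 4 + 1) = RRg
          induction RRg using Finset.induction_on with
          | empty => simp
          | insert q s hqs ih =>
            rw [Finset.set_biUnion_insert, Finset.sum_insert hqs]
            exact (Set.encard_union_le _ _).trans (add_le_add le_rfl ih)
      _ ≤ ∑ E ∈ Finset.range (D / 4 + 1), ((p ^ (D / 4) * p ^ (D / 4) * p ^ (D / 4) : ℕ) : ℕ∞) :=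
          Finset.sum_le_sum hone
      _ = (((D / 4 + 1) * (p ^ (D / 4) * p ^ (D / 4) * p ^ (D / 4)) : ℕ) : ℕ∞) := by
          rw [Finset.sum_const, Finset.card_range, nsmul_eq_mul]
          push_cast
          rfl
      _ ≤ (((D + 1) * (p ^ (D / 4) * p ^ (D / 4) * p ^ (D / 4)) : ℕ) : ℕ∞) := by
          exact_mod_cast Nat.mul_le_mul_right _ (by omega)
  have hRR : (1 : ℕ∞) ≤ (RR ν J : ℕ) := by
    have : 1 ≤ RR ν J := by
      unfold RR
      exact Nat.one_le_iff_ne_zero.mpr (by positivity)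
    exact_mod_cast this
  refine ⟨fun D => if D < KK ν then {0} else 𝒜 D \ Bad D, ?_, ?_, ?_⟩
  · intro D a ha i hi
    by_cases hD : D < KK ν
    · simp only [hD, if_true, Set.mem_singleton_iff] at ha
      rw [ha]; rfl
    · simp only [hD, if_false] at ha
      exact hsupp D a ha.1 i hi
  · intro D
    by_cases hD : D < KK ν
    · simp only [hD, if_true]
      refine ⟨Set.finite_singleton 0, 0, ?_, Nat.zero_le _, Or.inl ?_⟩
      · simp
      · omega
    simp only [hD, if_false]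
    push Not at hD
    have hKK : KK ν = 16 * st ν (m0 ν) + 16 := rfl
    have hD1 : 1 ≤ D := by omega
    obtain ⟨hfin, l, hl1, hl2, hl3⟩ := hcard D
    refine ⟨hfin.subset Set.sdiff_subset, l, ?_, hl2, ?_⟩
    swap
    · rcases hl3 with h | h
      · left; omega
      · exact Or.inr h
    have h16 : 16 * (D - l) ≤ D := by
      rcases hl3 with hl3 | hl3
      · omega
      have h8 : (8 : ℕ) ≤ 2 ^ ν := by
        calc 8 = 2 ^ 3 := by norm_num
          _ ≤ 2 ^ ν := Nat.pow_le_pow_right (by norm_num) hν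
      have h1 : (D - l) * 8 ^ J ≤ 2 ^ J * D :=
        (Nat.mul_le_mul_left _ (Nat.pow_le_pow_left h8 J)).trans hl3
      have h2 : (8 : ℕ) ^ J = 2 ^ J * 4 ^ J := by
        rw [← mul_pow]
        norm_num
      rw [h2] at h1
      have h3 : 2 ^ J * ((D - l) * 4 ^ J) ≤ 2 ^ J * D := by
        calc 2 ^ J * ((D - l) * 4 ^ J) = (D - l) * (2 ^ J * 4 ^ J) := by ring
          _ ≤ 2 ^ J * D := h1
      have h4 : (D - l) * 4 ^ J ≤ D := Nat.le_of_mul_le_mul_left h3 (by positivity)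
      have h5 : 16 ≤ 4 ^ J := by
        calc 16 = 4 ^ 2 := by norm_num
          _ ≤ 4 ^ J := Nat.pow_le_pow_right (by norm_num) hJ2
      calc 16 * (D - l) = (D - l) * 16 := by ring
        _ ≤ (D - l) * 4 ^ J := Nat.mul_le_mul_left _ h5
        _ ≤ D := h4
    have hnum := DEL_num hp16 hD1 hl2 h16
    have hBsub : Bad D ⊆ 𝒜 D := fun b hb => hb.1
    have hBfin : (Bad D).Finite := hfin.subset hBsub
    have hBn : (Bad D).ncard ≤ (D + 1) * (p ^ (D / 4) * p ^ (D / 4) * p ^ (D / 4)) := by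
      have := hbad D
      rw [← hBfin.cast_ncard_eq] at this
      exact_mod_cast this
    have hdiffn : (𝒜 D \ Bad D).ncard + (Bad D).ncard = (𝒜 D).ncard :=
      Set.ncard_sdiff_add_ncard_of_subset hBsub hfin
    rw [hl1] at hdiffn
    show p ^ l ≤ 2 * (𝒜 D \ Bad D).ncard
    omega
  · intro D D' hDD
    by_cases hDK : D < KK ν
    · simp only [hDK, if_true]
      refine (cross_zero_left _).mono le_rfl le_rfl ?_
      exact_mod_cast hRR
    have hDK' : ¬ D' < KK ν := by omega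
    simp only [hDK, hDK', if_false]
    by_cases h4 : D' ≤ 4 * D
    · exact (hcross D D' hDD h4).mono Set.sdiff_subset Set.sdiff_subset le_rfl
    · push Not at h4
      intro t
      refine le_trans ?_ hRR
      rw [Set.encard_le_one_iff]
      rintro a a₁ ⟨ha, hb⟩ ⟨ha₁, hb₁⟩
      by_contra hne
      apply hb.2
      refine ⟨hb.1, D, h4.le, a₁, ha₁.1, a, ha.1, ?_, ?_⟩
      · exact sub_ne_zero.mpr (Ne.symm hne)
      · have : t - a - (a₁ - a) = t - a₁ := by abel
        rw [this]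
        exact hb₁.1

end Pool.Agent.B2v
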