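import Pool.Agent.B2g.Dig

/-! Module ENC2 (MP_491344_nt, variable density): coding with small tags, all integers are scales. -/

namespace Pool.Agent.B2v

open Pool.Agent.B2g

variable {p : ℕ} [Fact p.Prime]

/-- digit number `j` of the code of `a` at scale `D` -/
def ED (D : ℕ) (a : V p) (j : ℕ) : ℕ :=
  4 * ((a j).1.val + 2 * p * (a j).2.val) + if j = D then 1 else 0

/-- the code -/
def EC (D : ℕ) (a : V p) : ℕ := ∑ j ∈ Finset.range (D + 1), ED D a j * (16 * p ^ 2) ^ j

theorem ED_lt (D : ℕ) (a : V p) (j : ℕ) : ED D a j < 8 * p ^ 2 := by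
  have h1 : (a j).1.val + 1 ≤ p := ZMod.val_lt _
  have h2 : (a j).2.val + 1 ≤ p := ZMod.val_lt _
  have h3 : 1 < p := (Fact.out : p.Prime).one_lt
  unfold ED
  set x := (a j).1.val
  set y := (a j).2.val
  have h4 : 2 * p * (y + 1) ≤ 2 * p * p := Nat.mul_le_mul_left _ h2
  split_ifs <;> nlinarith

theorem ED_zero {D : ℕ} {a : V p} (ha : ∀ k, D ≤ k → a k = 0) {j : ℕ} (hj : D < j) :
    ED D a j = 0 := by
  unfold ED
  rw [if_neg (by omega), ha j hj.le]
  simp

theorem EC_eq {D : ℕ} {a : V p} (ha : ∀ k, D ≤ k → a k = 0) {n : ℕ} (hn : D < n) :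
    EC D a = ∑ j ∈ Finset.range n, ED D a j * (16 * p ^ 2) ^ j := by
  unfold EC
  refine Finset.sum_subset (Finset.range_mono (by omega)) fun j _ hj => ?_
  rw [Finset.mem_range, not_lt] at hj
  rw [ED_zero ha (by omega), zero_mul]

theorem ED_sum {D E D' E' : ℕ} {a b a' b' : V p}
    (ha : ∀ k, D ≤ k → a k = 0) (hb : ∀ k, E ≤ k → b k = 0)
    (ha' : ∀ k, D' ≤ k → a' k = 0) (hb' : ∀ k, E' ≤ k → b' k = 0)
    (h : EC D a + EC E b = EC D' a' + EC E' b') (j : ℕ) :
    ED D a j + ED E b j = ED D' a' j + ED E' b' j := by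
  set n := D + E + D' + E' + j + 1 with hn
  rw [EC_eq ha (n := n) (by omega), EC_eq hb (n := n) (by omega),
    EC_eq ha' (n := n) (by omega), EC_eq hb' (n := n) (by omega),
    ← Finset.sum_add_distrib, ← Finset.sum_add_distrib] at h
  simp only [← add_mul] at h
  refine DIG_uniq (q := 16 * p ^ 2) n (fun j => ED D a j + ED E b j)
    (fun j => ED D' a' j + ED E' b' j) ?_ ?_ h j (by omega)
  · intro j
    have := ED_lt D a j
    have := ED_lt E b j
    omega
  · intro j
    have := ED_lt D' a' j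
    have := ED_lt E' b' j
    omega

theorem ED_tag {D E D' E' : ℕ} {a b a' b' : V p} {j : ℕ}
    (h : ED D a j + ED E b j = ED D' a' j + ED E' b' j) :
    ((if j = D then 1 else 0) + (if j = E then 1 else 0) : ℕ) =
      (if j = D' then 1 else 0) + (if j = E' then 1 else 0) := by
  unfold ED at h
  split_ifs at h ⊢ <;> omega

theorem ED_vec {D E D' E' : ℕ} {a b a' b' : V p} {j : ℕ}
    (h : ED D a j + ED E b j = ED D' a' j + ED E' b' j) : a j + b j = a' j + b' j := by
  have h0 := ED_tag h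
  have h1 : ((a j).1.val + (b j).1.val) + 2 * p * ((a j).2.val + (b j).2.val) =
      ((a' j).1.val + (b' j).1.val) + 2 * p * ((a' j).2.val + (b' j).2.val) := by
    unfold ED at h
    have h2 : ∀ x y z w : ℕ, (x + z) + 2 * p * (y + w) = (x + 2 * p * y) + (z + 2 * p * w) := by
      intro x y z w; ring
    rw [h2, h2]
    omega
  have h3 : ∀ c : V p, (c j).1.val < p := fun c => ZMod.val_lt _
  have hp : 0 < 2 * p := by have := h3 a; omega
  have h4 : (a j).1.val + (b j).1.val = (a' j).1.val + (b' j).1.val := by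
    have := congrArg (· % (2 * p)) h1
    simp only [Nat.add_mul_mod_self_left] at this
    rwa [Nat.mod_eq_of_lt (by have := h3 a; have := h3 b; omega),
      Nat.mod_eq_of_lt (by have := h3 a'; have := h3 b'; omega)] at this
  have h5 : (a j).2.val + (b j).2.val = (a' j).2.val + (b' j).2.val := by
    have : 2 * p * ((a j).2.val + (b j).2.val) = 2 * p * ((a' j).2.val + (b' j).2.val) := by
      omega
    exact Nat.eq_of_mul_eq_mul_left hp this
  refine Prod.ext ?_ ?_
  · have := congrArg (fun x : ℕ => (x : ZMod p)) h4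
    simpa using this
  · have := congrArg (fun x : ℕ => (x : ZMod p)) h5
    simpa using this

theorem EC_main {D E D' E' : ℕ} {a b a' b' : V p}
    (ha : ∀ k, D ≤ k → a k = 0) (hb : ∀ k, E ≤ k → b k = 0)
    (ha' : ∀ k, D' ≤ k → a' k = 0) (hb' : ∀ k, E' ≤ k → b' k = 0)
    (h : EC D a + EC E b = EC D' a' + EC E' b') :
    ((D' = D ∧ E' = E) ∨ (D' = E ∧ E' = D)) ∧ a + b = a' + b' := by
  have hj := ED_sum ha hb ha' hb' h
  constructor
  · have h1 := ED_tag (hj D)
    have h2 := ED_tag (hj E)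
    have h3 := ED_tag (hj D')
    have h4 := ED_tag (hj E')
    clear h hj ha hb ha' hb'
    by_cases c1 : D' = D
    · subst c1
      left
      refine ⟨rfl, ?_⟩
      by_cases c2 : E' = E
      · exact c2
      · simp [c2, Ne.symm c2] at h2 h4
    · right
      by_cases c2 : D' = E
      · subst c2
        refine ⟨rfl, ?_⟩
        by_contra c3
        simp [c1, Ne.symm c1, c3, Ne.symm c3] at h1
      · exfalso
        simp only [c1, c2, if_false, if_true] at h3
        omega
  · funext j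
    exact ED_vec (hj j)

/-- Module ENC2.  Scale `D` (any natural number), base `Q = 16 p²`, `A = ⋃ D, EC D '' X D`. -/
theorem encode2 {X : ℕ → Set (V p)} {R : ℕ}
    (hsupp : ∀ D, ∀ a ∈ X D, ∀ i, D ≤ i → a i = 0)
    (hC : ∀ D D', D ≤ D' → Cross (X D) (X D') R) :
    ∃ A : Set ℕ, (∀ n : ℕ, Set.ncard {x : ℕ × ℕ | x.1 ∈ A ∧ x.2 ∈ A ∧ x.1 + x.2 = n} ≤ 2 * R) ∧
      ∀ D N, 2 * (16 * p ^ 2) ^ D ≤ N → (X D).ncard ≤ (A ∩ Set.Icc 1 N).ncard := by
  have hC' : ∀ i k, Cross (X i) (X k) R := by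
    intro i k
    rcases le_total i k with h | h
    · exact hC i k h
    · exact (hC k i h).symm
  refine ⟨{x | ∃ i, ∃ a ∈ X i, x = EC i a}, ?_, ?_⟩
  · intro n
    set T := {x : ℕ × ℕ | x.1 ∈ {x | ∃ i, ∃ a ∈ X i, x = EC i a} ∧
      x.2 ∈ {x | ∃ i, ∃ a ∈ X i, x = EC i a} ∧ x.1 + x.2 = n} with hT
    rcases T.eq_empty_or_nonempty with h0 | ⟨⟨x0, y0⟩, ⟨i, a0, ha0, hx0⟩, ⟨k, b0, hb0, hy0⟩, hn⟩
    · rw [h0]; simp
    simp only at hx0 hy0 hn
    subst hx0 hy0
    set t := a0 + b0 with ht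
    set S := {a | a ∈ X i ∧ t - a ∈ X k} with hS
    have hSR : S.encard ≤ R := hC' i k t
    have hsub : T ⊆ (fun a => (EC i a, EC k (t - a))) '' S ∪
        (fun a => (EC k (t - a), EC i a)) '' S := by
      rintro ⟨x, y⟩ ⟨⟨i', a', ha', hx⟩, ⟨k', b', hb', hy⟩, hxy⟩
      simp only at hx hy hxy
      subst hx hy
      obtain ⟨h1, h2⟩ := EC_main (hsupp i a0 ha0) (hsupp k b0 hb0) (hsupp i' a' ha')
        (hsupp k' b' hb') (hn.trans hxy.symm)
      have h3 : t - a' = b' := by rw [ht, h2]; abel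
      have h4 : t - b' = a' := by rw [ht, h2]; abel
      rcases h1 with ⟨rfl, rfl⟩ | ⟨rfl, rfl⟩
      · left
        exact ⟨a', ⟨ha', by rw [h3]; exact hb'⟩, by simp [h3]⟩
      · right
        exact ⟨b', ⟨hb', by rw [h4]; exact ha'⟩, by simp [h4]⟩
    have hcard : T.encard ≤ ((2 * R : ℕ) : ℕ∞) := by
      calc T.encard ≤ _ := Set.encard_le_encard hsub
        _ ≤ _ := Set.encard_union_le _ _
        _ ≤ S.encard + S.encard := add_le_add (Set.encard_image_le _ _) (Set.encard_image_le _ _)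
        _ ≤ (R : ℕ∞) + R := add_le_add hSR hSR
        _ = _ := by push_cast; ring
    exact ENat.toNat_le_of_le_natCast hcard
  · intro D N hN
    have hp : 1 < p := (Fact.out : p.Prime).one_lt
    have hinj : Set.InjOn (EC D) (X D) := by
      intro a ha b hb hab
      obtain ⟨-, h2⟩ := EC_main (hsupp D a ha) (hsupp D a ha) (hsupp D a ha) (hsupp D b hb)
        (show EC D a + EC D a = EC D a + EC D b by rw [hab])
      exact add_left_cancel h2
    rw [← hinj.ncard_image]
    refine Set.ncard_le_ncard ?_ ((Set.finite_Icc 1 N).inter_of_right _)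
    rintro x ⟨a, ha, rfl⟩
    have hlast : EC D a = ∑ j ∈ Finset.range D, ED D a j * (16 * p ^ 2) ^ j +
        (16 * p ^ 2) ^ D := by
      unfold EC
      rw [Finset.sum_range_succ]
      congr 1
      unfold ED
      rw [if_pos rfl, hsupp D a ha D le_rfl]
      simp
    have h1 : ∑ j ∈ Finset.range D, ED D a j * (16 * p ^ 2) ^ j < (16 * p ^ 2) ^ D :=
      DIG_lt (q := 16 * p ^ 2) D (ED D a) (fun j => by have := ED_lt D a j; omega)
    have h2 : 1 ≤ (16 * p ^ 2) ^ D := Nat.one_le_pow _ _ (by positivity)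
    refine ⟨⟨D, a, ha, rfl⟩, ?_, ?_⟩
    · omega
    · omega

end Pool.Agent.B2v
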