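import Pool.Agent.B2g.Fam
import Pool.Agent.B2g.NumH

/-! Module FAM2 (MP_491344_nt, variable density).  The family of `B2g` without a lower bound for the
scale: the recursion stops when the next block would be too small. -/

namespace Pool.Agent.B2v

open Pool.Agent.B2g

/-- number of levels whose blocks have index at least `c` -/
def lv (ν c : ℕ) : ℕ → ℕ → ℕ
  | 0, _ => 0
  | J + 1, D => if D < st ν c then 0 else lv ν c J (D - Bl ν (bi ν D)) + 1

theorem lv_le (ν c J D : ℕ) : lv ν c J D ≤ J := by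
  induction J generalizing D with
  | zero => simp [lv]
  | succ J ih =>
    rw [lv]
    split_ifs
    · exact Nat.zero_le _
    · exact Nat.succ_le_succ (ih _)

theorem used_lv (ν c J D : ℕ) : ∀ k ∈ used ν (lv ν c J D) D, c ≤ k := by
  induction J generalizing D with
  | zero => intro k hk; simp [lv, used] at hk
  | succ J ih =>
    intro k hk
    rw [lv] at hk
    split_ifs at hk with h
    · simp [used] at hk
    · push Not at h
      have h0 : st ν 0 ≤ D := NUMG_st0_le h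
      rw [used, if_neg (not_lt.2 h0), Finset.mem_insert] at hk
      rcases hk with rfl | hk
      · exact NUMG_le_bi h
      · exact ih _ _ hk

/-- what is left over after the levels -/
theorem len_lv (ν c J D : ℕ) :
    D - len ν (lv ν c J D) D ≤ st ν c ∨
      (D - len ν (lv ν c J D) D) * (2 ^ ν) ^ J ≤ 2 ^ J * D := by
  induction J generalizing D with
  | zero => right; simp [lv, len]
  | succ J ih =>
    rw [lv]
    split_ifs with h
    · left
      simp only [len, Nat.sub_zero]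
      exact h.le
    · push Not at h
      have h0 : st ν 0 ≤ D := NUMG_st0_le h
      rw [len, if_neg (not_lt.2 h0)]
      set D1 := D - Bl ν (bi ν D) with hD1
      set l1 := len ν (lv ν c J D1) D1 with hl1
      have e1 : D - (Bl ν (bi ν D) + l1) = D1 - l1 := by omega
      rw [e1]
      rcases ih D1 with h2 | h2
      · exact Or.inl h2
      · right
        have h3 : D1 * 2 ^ ν ≤ 2 * D := by
          have h4 := lt_Bl_bi_add h0
          have h5 : 2 ^ ν * Un ν (bi ν D) ≤ D := le_trans (Bl_lower ν _) (Bl_bi_le h0)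
          have h6 : D1 ≤ 2 * Un ν (bi ν D) := by omega
          calc D1 * 2 ^ ν ≤ (2 * Un ν (bi ν D)) * 2 ^ ν := Nat.mul_le_mul_right _ h6
            _ = 2 * (2 ^ ν * Un ν (bi ν D)) := by ring
            _ ≤ 2 * D := Nat.mul_le_mul_left _ h5
        calc (D1 - l1) * (2 ^ ν) ^ (J + 1) = ((D1 - l1) * (2 ^ ν) ^ J) * 2 ^ ν := by
              rw [pow_succ]; ring
          _ ≤ (2 ^ J * D1) * 2 ^ ν := Nat.mul_le_mul_right _ h2
          _ = 2 ^ J * (D1 * 2 ^ ν) := by ring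
          _ ≤ 2 ^ J * (2 * D) := Nat.mul_le_mul_left _ h3
          _ = 2 ^ (J + 1) * D := by rw [pow_succ]; ring

/-- the cut -/
def cut (p ν D : ℕ) : ℕ := max (m0 ν) (bi ν (4 * D) + 1 - p)

/-- if the cut is not `m0 ν` then it is far below the scale -/
theorem st_cut {p ν J D : ℕ} (hν : 3 ≤ ν) (hp2 : 2 ^ ν * (5 + J * (2 * ν + 4)) ≤ p)
    (h : m0 ν < bi ν (4 * D) + 1 - p) :
    st ν (bi ν (4 * D) + 1 - p) * (2 ^ ν) ^ J ≤ 2 ^ J * D := by
  have hn : 0 < 2 ^ ν := by positivity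
  set M := bi ν (4 * D) with hM
  have hp0 : 0 < p := lt_of_lt_of_le (by positivity) hp2
  have hMpos : 0 < M := by omega
  have h4D : st ν 0 ≤ 4 * D := by
    by_contra hcon
    push Not at hcon
    have := NUMB_bi_lt hcon
    omega
  have h7 : 2 ^ ν * Un ν M ≤ 4 * D := le_trans (Bl_lower ν _) (Bl_bi_le h4D)
  set c := M + 1 - p with hc
  have h8 : st ν c ≤ Bl ν (c + 1) := st_le_Bl_succ ν c
  have h9 : Bl ν (c + 1) < 2 * 2 ^ ν * Un ν (c + 1) := Bl_upper ν _
  have hdiv : (c + 1) / 2 ^ ν + (4 + J * (2 * ν + 4)) ≤ M / 2 ^ ν := by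
    have e1 : (c + 1) + 2 ^ ν * (4 + J * (2 * ν + 4)) ≤ M := by
      have e2 : 2 ^ ν * (5 + J * (2 * ν + 4)) = 2 ^ ν * (4 + J * (2 * ν + 4)) + 2 ^ ν := by ring
      have e3 : 2 ≤ 2 ^ ν := by
        calc 2 = 2 ^ 1 := by norm_num
          _ ≤ 2 ^ ν := Nat.pow_le_pow_right (by norm_num) (by omega)
      have e5 : c + p = M + 1 := by omega
      omega
    calc (c + 1) / 2 ^ ν + (4 + J * (2 * ν + 4))
        = ((c + 1) + 2 ^ ν * (4 + J * (2 * ν + 4))) / 2 ^ ν := by
          rw [Nat.add_mul_div_left _ _ hn]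
      _ ≤ M / 2 ^ ν := Nat.div_le_div_right e1
  have h10 : Un ν (c + 1) * 2 ^ (4 + J * (2 * ν + 4)) ≤ Un ν M := by
    unfold Un
    rw [← pow_add]
    exact Nat.pow_le_pow_right (by norm_num) hdiv
  have h11 : st ν c * 2 ^ (4 + J * (2 * ν + 4)) ≤ 8 * D := by
    calc st ν c * 2 ^ (4 + J * (2 * ν + 4))
        ≤ (2 * 2 ^ ν * Un ν (c + 1)) * 2 ^ (4 + J * (2 * ν + 4)) :=
          Nat.mul_le_mul_right _ (h8.trans h9.le)
      _ = 2 * (2 ^ ν * (Un ν (c + 1) * 2 ^ (4 + J * (2 * ν + 4)))) := by ring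
      _ ≤ 2 * (2 ^ ν * Un ν M) := Nat.mul_le_mul_left _ (Nat.mul_le_mul_left _ h10)
      _ ≤ 2 * (4 * D) := Nat.mul_le_mul_left _ h7
      _ = 8 * D := by ring
  have h12 : (2 ^ ν) ^ J * 8 ≤ 2 ^ (4 + J * (2 * ν + 4)) := by
    rw [← pow_mul, show (8 : ℕ) = 2 ^ 3 by norm_num, ← pow_add]
    refine Nat.pow_le_pow_right (by norm_num) ?_
    nlinarith
  have h13 : 8 * (st ν c * (2 ^ ν) ^ J) ≤ 8 * D := by
    calc 8 * (st ν c * (2 ^ ν) ^ J) = st ν c * ((2 ^ ν) ^ J * 8) := by ring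
      _ ≤ st ν c * 2 ^ (4 + J * (2 * ν + 4)) := Nat.mul_le_mul_left _ h12
      _ ≤ 8 * D := h11
  have h14 : st ν c * (2 ^ ν) ^ J ≤ D := Nat.le_of_mul_le_mul_left h13 (by norm_num)
  exact h14.trans (Nat.le_mul_of_pos_left _ (by positivity))

variable {p ν : ℕ} [Fact p.Prime]

/-- Module FAM2.  `𝒜 D = A η Φ (lv ν (cut p ν D) J D) D`. -/
theorem family2 (hν : 3 ≤ ν) {J : ℕ} (hp : 2 ^ (40 * 4 ^ ν) ≤ p) (hJ : (J + 1) ^ 2 ≤ p)
    (hp2 : 2 ^ ν * (5 + J * (2 * ν + 4)) ≤ p) :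
    ∃ 𝒜 : ℕ → Set (V p),
      (∀ D, ∀ a ∈ 𝒜 D, ∀ i, D ≤ i → a i = 0) ∧
      (∀ D, (𝒜 D).Finite ∧
        ∃ l, (𝒜 D).ncard = p ^ l ∧ l ≤ D ∧
          (D - l ≤ st ν (m0 ν) ∨ (D - l) * (2 ^ ν) ^ J ≤ 2 ^ J * D)) ∧
      (∀ D D', D ≤ D' → D' ≤ 4 * D → Cross (𝒜 D) (𝒜 D') (RR ν J)) ∧
      (∀ D', ∀ M, 2 * M ≤ D' → ∀ d : V p, d ≠ 0 → (∀ i, M ≤ i → d i = 0) →
        {b | b ∈ 𝒜 D' ∧ b - d ∈ 𝒜 D'}.encard ≤ ((p ^ (D' / 4) : ℕ) : ℕ∞)) := by
  obtain ⟨Φ⟩ := exists_flds p ν (by omega)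
  obtain ⟨η, hη, hgood⟩ := exists_eta hν hp hJ Φ
  have S : Setup Φ η J := ⟨hν, hp, hη, hgood⟩
  have hppos : 0 < p := (Fact.out : p.Prime).pos
  refine ⟨fun D => A η Φ (lv ν (cut p ν D) J D) D, ?_, ?_, ?_, ?_⟩
  · intro D a ha
    exact supp_A hη ha
  · intro D
    refine ⟨(ncard_A hη _ D).1, len ν _ D, (ncard_A hη _ D).2, len_le ν _ D, ?_⟩
    rcases len_lv ν (cut p ν D) J D with h | h
    · by_cases h1 : m0 ν < bi ν (4 * D) + 1 - p
      · right
        have h2 : cut p ν D = bi ν (4 * D) + 1 - p := max_eq_right h1.le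
        rw [← h2] at h1
        have h3 := st_cut (J := J) (D := D) hν hp2 (by rw [← h2]; exact h1)
        rw [← h2] at h3
        exact (Nat.mul_le_mul_right _ h).trans h3
      · left
        have h2 : cut p ν D = m0 ν := max_eq_left (not_lt.1 h1)
        rw [h2] at h ⊢
        exact h
    · exact Or.inr h
  · intro D D' hDD hD'
    have hyp : Hyp p ν (m0 ν) (lv ν (cut p ν D) J D) D D' := by
      intro k hk
      have h3 := used_lv ν (cut p ν D) J D k hk
      have h4 : m0 ν ≤ cut p ν D := le_max_left _ _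
      have h5 : bi ν (4 * D) + 1 - p ≤ cut p ν D := le_max_right _ _
      have h6 : bi ν D' ≤ bi ν (4 * D) := bi_mono ν hD'
      exact ⟨by omega, by omega⟩
    have := main_rec S D' _ _ D (lv_le ν (cut p ν D) J D) (lv_le ν (cut p ν D') J D') hDD hyp
    refine this.mono le_rfl le_rfl ?_
    unfold RR
    exact Nat.mul_le_mul_right _ (Nat.pow_le_pow_right (by norm_num)
      ((min_le_left _ _).trans (lv_le _ _ _ _)))
  · intro D' M hM d hd hdM
    by_cases hl : lv ν (cut p ν D') J D' = 0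
    · have hS : {b | b ∈ A η Φ (lv ν (cut p ν D') J D') D' ∧
          b - d ∈ A η Φ (lv ν (cut p ν D') J D') D'} = ∅ := by
        rw [Set.eq_empty_iff_forall_notMem]
        rintro b ⟨h1, h2⟩
        rw [hl] at h1 h2
        rw [A_zero, Set.mem_singleton_iff] at h1 h2
        rw [h1, zero_sub, neg_eq_zero] at h2
        exact hd h2
      show {b | b ∈ A η Φ (lv ν (cut p ν D') J D') D' ∧
          b - d ∈ A η Φ (lv ν (cut p ν D') J D') D'}.encard ≤ _
      rw [hS]
      simp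
    have h0 : st ν 0 ≤ D' := by
      by_contra hcon
      push Not at hcon
      apply hl
      cases J with
      | zero => rfl
      | succ J =>
        rw [lv, if_pos]
        exact lt_of_lt_of_le hcon ((st_strictMono ν).monotone (Nat.zero_le _))
    have h3 := lt_two_mul_Bl_bi (ν := ν) (D := D') (by omega) h0
    have h4 := diff_bound (Φ := Φ) (η := η) S.p_ne_two hη (j := lv ν (cut p ν D') J D')
      (D := D') (M := M) h0 (by omega) hd hdM
    refine h4.trans ?_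
    have h5 := lt_Bl_bi_add (ν := ν) (D := D') h0
    have h6 := Bl_lower ν (bi ν D')
    have h7 := Bl_bi_le (ν := ν) (D := D') h0
    have h8 : 8 ≤ 2 ^ ν := by
      calc 8 = 2 ^ 3 := by norm_num
        _ ≤ 2 ^ ν := Nat.pow_le_pow_right (by norm_num) hν
    have h9 : 8 * Un ν (bi ν D') ≤ D' :=
      (Nat.mul_le_mul_right _ h8).trans (h6.trans h7)
    have h10 : D' - Bl ν (bi ν D') ≤ D' / 4 := by omega
    exact_mod_cast Nat.pow_le_pow_right hppos h10

end Pool.Agent.B2v
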