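import Pool.Agent.B2v.Stg0
import Pool.Agent.B2g.Fin

/-! Module STG (MP_491344_nt, variable density): one stage with uniform constants. -/

namespace Pool.Agent.B2v

open Pool.Agent.B2g

/-- `h x = log (1/x) / log log (1/x)` -/
noncomputable def hh (x : ℝ) : ℝ := Real.log (1 / x) / Real.log (Real.log (1 / x))

/-- Module STG (choice of `ν`, extracted from the proof of `Pool.Agent.B2g.final`): `L = log (1/e)`,
`y = L / log L`; `y ≥ 64`: `ν = Nat.log 4 ⌊y⌋₊`; else `ν = 3`. -/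
theorem choose_nu {e : ℝ} (he : 0 < e) (he2 : e < 1 / 16) : ∃ ν : ℕ, 3 ≤ ν ∧
    (4 : ℝ) ^ ν ≤ 64 + Real.log (1 / e) ∧
    Real.log (8 / e) / Real.log (2 ^ (ν - 1)) + 60 * 4 ^ ν ≤ 40000 * hh e := by
  obtain ⟨L, hL⟩ : ∃ L : ℝ, L = Real.log (1 / e) := ⟨_, rfl⟩
  have hlog2a : (0.6931471803 : ℝ) < Real.log 2 := Real.log_two_gt_d9
  have hlog2b : Real.log 2 < 0.6931471808 := Real.log_two_lt_d9
  have h16 : (16 : ℝ) < 1 / e := by
    rw [lt_div_iff₀ he]
    linarith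
  have hlog16 : Real.log 16 = 4 * Real.log 2 := by
    rw [show (16 : ℝ) = 2 ^ 4 by norm_num, Real.log_pow]
    norm_num
  have hlog8 : Real.log 8 = 3 * Real.log 2 := by
    rw [show (8 : ℝ) = 2 ^ 3 by norm_num, Real.log_pow]
    norm_num
  have hL1 : 4 * Real.log 2 < L := by
    rw [hL, ← hlog16]
    exact Real.log_lt_log (by norm_num) h16
  have hLe : Real.exp 1 < L := by
    have := Real.exp_one_lt_d9
    linarith
  have hL0 : 0 < L := by linarith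
  have hll : 1 < Real.log L := by
    rw [← Real.log_exp 1]
    exact Real.log_lt_log (Real.exp_pos 1) hLe
  have h8e : Real.log (8 / e) = 3 * Real.log 2 + L := by
    rw [hL, show 8 / e = 8 * (1 / e) by ring, Real.log_mul (by norm_num) (by positivity), hlog8]
  have h8L : Real.log (8 / e) ≤ 2 * L := by rw [h8e]; linarith
  obtain ⟨y, hy⟩ : ∃ y : ℝ, y = L / Real.log L := ⟨_, rfl⟩
  have hhy : hh e = y := by
    unfold hh
    rw [← hL, hy]
  rw [hhy, ← hL]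
  have hyL : y * Real.log L = L := by
    rw [hy]
    field_simp
  have hy1 : 1 ≤ y := by
    rw [hy, one_le_div (by linarith)]
    have := Real.log_le_sub_one_of_pos hL0
    linarith
  have hyL' : y ≤ L := by
    rw [hy]
    exact div_le_self hL0.le hll.le
  have hsq : Real.log L ≤ 2 * Real.sqrt L := FIN_log_le hL0
  have hsL : Real.sqrt L * Real.sqrt L = L := Real.mul_self_sqrt hL0.le
  have hs0 : 0 < Real.sqrt L := Real.sqrt_pos.2 hL0
  by_cases hy64 : 64 ≤ y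
  · -- large
    obtain ⟨ν, hν⟩ : ∃ ν : ℕ, ν = Nat.log 4 ⌊y⌋₊ := ⟨_, rfl⟩
    have hf : 64 ≤ ⌊y⌋₊ := Nat.le_floor (by exact_mod_cast hy64)
    have hν3 : 3 ≤ ν := by
      rw [hν]
      refine (Nat.le_log_iff_pow_le (by norm_num) (by omega)).2 ?_
      norm_num
      exact hf
    have h4a : (4 : ℝ) ^ ν ≤ y := by
      have h1 : 4 ^ ν ≤ ⌊y⌋₊ := by
        rw [hν]
        exact Nat.pow_log_le_self 4 (by omega)
      have h2 : ((⌊y⌋₊ : ℕ) : ℝ) ≤ y := Nat.floor_le (by linarith)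
      calc (4 : ℝ) ^ ν = ((4 ^ ν : ℕ) : ℝ) := by push_cast; rfl
        _ ≤ (⌊y⌋₊ : ℝ) := by exact_mod_cast h1
        _ ≤ y := h2
    have h4b : y < (4 : ℝ) ^ (ν + 1) := by
      have h1 : ⌊y⌋₊ < 4 ^ (ν + 1) := by
        rw [hν]
        exact Nat.lt_pow_succ_log_self (by norm_num) _
      have h2 : ⌊y⌋₊ + 1 ≤ 4 ^ (ν + 1) := h1
      calc y < ⌊y⌋₊ + 1 := Nat.lt_floor_add_one y
        _ = ((⌊y⌋₊ + 1 : ℕ) : ℝ) := by push_cast; rfl
        _ ≤ ((4 ^ (ν + 1) : ℕ) : ℝ) := by exact_mod_cast h2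
        _ = (4 : ℝ) ^ (ν + 1) := by push_cast; rfl
    refine ⟨ν, hν3, by linarith, ?_⟩
    -- sqrt L ≤ 2 y
    have h5 : Real.sqrt L ≤ 2 * y := by
      have : y * Real.log L ≤ y * (2 * Real.sqrt L) :=
        mul_le_mul_of_nonneg_left hsq (by linarith)
      nlinarith
    have h6 : Real.sqrt L < 2 * 4 ^ (ν + 1) := by linarith
    have h7 : Real.log L = 2 * Real.log (Real.sqrt L) := by
      rw [Real.log_sqrt hL0.le]
      ring
    have h8 : Real.log (Real.sqrt L) ≤ (2 * (ν : ℝ) + 3) * Real.log 2 := by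
      have : Real.log (Real.sqrt L) ≤ Real.log ((2 : ℝ) * 4 ^ (ν + 1)) :=
        Real.log_le_log hs0 h6.le
      refine this.trans (le_of_eq ?_)
      have e4 : (2 : ℝ) * 4 ^ (ν + 1) = 2 ^ (2 * ν + 3) := by
        rw [show (4 : ℝ) = 2 ^ 2 by norm_num, ← pow_mul, ← pow_succ']
        congr 1
      rw [e4, Real.log_pow]
      push_cast
      ring
    have hνR : (3 : ℝ) ≤ ν := by exact_mod_cast hν3
    have h9 : Real.log L ≤ 9 * ((ν : ℝ) - 1) * Real.log 2 := by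
      rw [h7]
      nlinarith
    have h10 : Real.log ((2 : ℝ) ^ (ν - 1)) = ((ν : ℝ) - 1) * Real.log 2 := by
      rw [Real.log_pow]
      congr 1
      rw [Nat.cast_sub (by omega)]
      simp
    rw [h10]
    have h11 : 0 < ((ν : ℝ) - 1) * Real.log 2 := mul_pos (by linarith) (by linarith)
    have h12 : Real.log (8 / e) / (((ν : ℝ) - 1) * Real.log 2) ≤ 18 * y := by
      rw [div_le_iff₀ h11]
      have : y * Real.log L ≤ y * (9 * ((ν : ℝ) - 1) * Real.log 2) :=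
        mul_le_mul_of_nonneg_left h9 (by linarith)
      nlinarith
    nlinarith
  · push Not at hy64
    refine ⟨3, le_rfl, by norm_num; linarith, ?_⟩
    have h5 : Real.sqrt L ≤ 128 := by
      have : y * Real.log L ≤ 64 * (2 * Real.sqrt L) :=
        mul_le_mul hy64.le hsq (by linarith) (by norm_num)
      nlinarith
    have h6 : L ≤ 16384 := by nlinarith
    have h7 : Real.log ((2 : ℝ) ^ (3 - 1)) = 2 * Real.log 2 := by
      rw [Real.log_pow]
      norm_num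
    rw [h7]
    have h8 : Real.log (8 / e) / (2 * Real.log 2) ≤ 32768 := by
      rw [div_le_iff₀ (by linarith)]
      linarith
    have h9 : (60 : ℝ) * 4 ^ 3 = 3840 := by norm_num
    rw [h9]
    linarith

/-- Module STG: `KK ν ≤ 2 ^ (3 * ν + 13)` (`m0 ν = 2^ν (2ν+8)`, `Bl ν (m0 ν) = 2^(3ν+8)`,
`sl ν (m0 ν) = 2^(ν+7)`). -/
theorem KK_le (ν : ℕ) : KK ν ≤ 2 ^ (3 * ν + 13) := by
  have hn : 0 < 2 ^ ν := by positivity
  have h1 : m0 ν / 2 ^ ν = 2 * ν + 8 := by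
    unfold m0
    exact Nat.mul_div_cancel_left _ hn
  have h2 : m0 ν % 2 ^ ν = 0 := by
    unfold m0
    exact Nat.mul_mod_right _ _
  have h3 : Bl ν (m0 ν) = 2 ^ (3 * ν + 8) := by
    unfold Bl
    rw [h1, h2, Nat.add_zero, ← pow_add]
    congr 1
    ring
  have h4 : sl ν (m0 ν) ≤ 2 ^ (ν + 7) := by
    unfold sl Un
    rw [h1]
    apply Nat.div_le_of_le_mul
    rw [show 2 * 2 ^ ν * 2 ^ (ν + 7) = 2 ^ (2 * ν + 8) by
      rw [← pow_succ', ← pow_add]; congr 1; ring]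
  unfold KK st
  have h5 : 2 ^ (3 * ν + 13) = 32 * 2 ^ (3 * ν + 8) := by
    rw [show 3 * ν + 13 = (3 * ν + 8) + 5 by ring, pow_add]; ring
  have h6 : 2 ^ (ν + 7) * 2 ≤ 2 ^ (3 * ν + 8) := by
    rw [← pow_succ]
    exact Nat.pow_le_pow_right (by norm_num) (by omega)
  have h7 : 1 ≤ 2 ^ (ν + 7) := Nat.one_le_pow _ _ (by norm_num)
  rw [h3, h5]
  omega

/-- Module STG: `stage0` with `ν` from `choose_nu`; the exponent is at most
`(2^13 8^ν + 4) 300 (4^ν + 1/e)`, `8^ν ≤ (4^ν)^2 ≤ (64 + log (1/e))^2`, and every power of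
`log (1/e)` is at most a constant times `e ^ (-κ)`. -/
theorem stage : ∃ C : ℝ, 0 < C ∧ ∀ κ : ℝ, 0 < κ → ∃ K : ℝ, 0 < K ∧
    ∀ e : ℝ, 0 < e → e < 1 / 16 → ∃ A : Set ℕ,
      (∀ n : ℕ, (rp A n : ℝ) ≤ Real.exp (C * hh e)) ∧
      ∀ y : ℕ, 2 ≤ y → (y : ℝ) ^ (1 / 2 - e) ≤
        Real.exp (K * e ^ (-(1 + κ))) * ((A ∩ Set.Icc 1 y).ncard : ℝ) := by
  refine ⟨40000, by norm_num, fun κ hκ => ?_⟩
  -- (64 + L)^2 ≤ c e^(-κ), (64 + L)^3 ≤ c e^(-κ)
  obtain ⟨c, hc⟩ : ∃ c : ℝ, c = 64 + 3 / κ := ⟨_, rfl⟩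
  have hc64 : 64 ≤ c := by rw [hc]; have : 0 < 3 / κ := by positivity
                           linarith
  refine ⟨(2 ^ 13 + 4) * 600 * c ^ 3, by positivity, ?_⟩
  intro e he he2
  obtain ⟨ν, hν, h4, hb⟩ := choose_nu he he2
  obtain ⟨A, hA1, hA2⟩ := stage0 (e := e) hν he (by linarith)
  obtain ⟨L, hL⟩ : ∃ L : ℝ, L = Real.log (1 / e) := ⟨_, rfl⟩
  rw [← hL] at h4
  have h1e : 16 < 1 / e := by
    rw [lt_div_iff₀ he]; linarith
  have hL0 : 0 < L := by rw [hL]; exact Real.log_pos (by linarith)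
  have hlog2a : (0.6931471803 : ℝ) < Real.log 2 := Real.log_two_gt_d9
  have hlog2b : Real.log 2 < 0.6931471808 := Real.log_two_lt_d9
  refine ⟨A, fun n => (hA1 n).trans ?_, fun y hy => (hA2 y hy).trans ?_⟩
  · rw [Real.rpow_def_of_pos (by norm_num)]
    refine Real.exp_le_exp.2 ?_
    set z := Real.log (8 / e) / Real.log (2 ^ (ν - 1)) + 60 * 4 ^ ν with hz
    have hz0 : 0 ≤ z := by
      have h1 : 0 ≤ Real.log (8 / e) := Real.log_nonneg (by
        rw [le_div_iff₀ he]; linarith)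
      have h2 : 0 ≤ Real.log ((2 : ℝ) ^ (ν - 1)) :=
        Real.log_nonneg (one_le_pow₀ (by norm_num))
      positivity
    nlinarith
  · refine mul_le_mul_of_nonneg_right (Real.exp_le_exp.2 ?_) (Nat.cast_nonneg _)
    -- L ≤ (3/κ) e^(-κ/3)
    have hE : e ^ (-κ) = Real.exp (κ * L) := by
      rw [hL, Real.rpow_def_of_pos he, one_div, Real.log_inv]
      congr 1
      ring
    obtain ⟨w, hw⟩ : ∃ w : ℝ, w = Real.exp (κ / 3 * L) := ⟨_, rfl⟩
    have hw1 : 1 ≤ w := by rw [hw]; exact Real.one_le_exp (by positivity)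
    have hw3 : w ^ 3 = e ^ (-κ) := by
      rw [hw, hE, ← Real.exp_nat_mul]
      congr 1
      push_cast
      ring
    have hLw : L ≤ 3 / κ * w := by
      have := Real.add_one_le_exp (κ / 3 * L)
      rw [← hw] at this
      have h2 : κ / 3 * L ≤ w := by linarith
      calc L = 3 / κ * (κ / 3 * L) := by field_simp
        _ ≤ 3 / κ * w := mul_le_mul_of_nonneg_left h2 (by positivity)
    have h64 : 64 + L ≤ c * w := by
      rw [hc, add_mul]
      nlinarith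
    have hpow : e ^ (-(1 + κ)) = 1 / e * w ^ 3 := by
      rw [hw3, show -(1 + κ) = -1 + -κ by ring, Real.rpow_add he, Real.rpow_neg_one]
      ring
    have hKK : (KK ν : ℝ) ≤ 2 ^ 13 * (4 ^ ν) ^ 2 := by
      have h1 : (KK ν : ℝ) ≤ 2 ^ (3 * ν + 13) := by exact_mod_cast KK_le ν
      have h2 : (2 : ℝ) ^ (3 * ν + 13) = 2 ^ 13 * 2 ^ (3 * ν) := by rw [pow_add]; ring
      have h3 : (2 : ℝ) ^ (3 * ν) ≤ (4 ^ ν) ^ 2 := by
        rw [← pow_mul, show (4 : ℝ) = 2 ^ 2 by norm_num, ← pow_mul]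
        exact pow_le_pow_right₀ (by norm_num) (by omega)
      calc (KK ν : ℝ) ≤ 2 ^ (3 * ν + 13) := h1
        _ = 2 ^ 13 * 2 ^ (3 * ν) := h2
        _ ≤ _ := mul_le_mul_of_nonneg_left h3 (by positivity)
    obtain ⟨q, hq⟩ : ∃ q : ℝ, q = 4 ^ ν := ⟨_, rfl⟩
    rw [← hq] at h4 hKK ⊢
    have hq1 : 1 ≤ q := by rw [hq]; exact one_le_pow₀ (by norm_num)
    have hqc : q ≤ c * w := by linarith
    have hcw : 1 ≤ c * w := by nlinarith
    have h5 : (KK ν : ℝ) + 4 ≤ (2 ^ 13 + 4) * q ^ 2 := by nlinarith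
    have h6 : q + 1 / e ≤ 2 * (q * (1 / e)) := by nlinarith
    have h7 : ((KK ν : ℝ) + 4) * (300 * (q + 1 / e)) ≤
        ((2 ^ 13 + 4) * q ^ 2) * (300 * (2 * (q * (1 / e)))) := by
      apply mul_le_mul h5 (by linarith) (by positivity) (by positivity)
    have h8 : q ^ 3 ≤ (c * w) ^ 3 := pow_le_pow_left₀ (by linarith) hqc 3
    calc ((KK ν : ℝ) + 4) * (300 * (q + 1 / e))
        ≤ ((2 ^ 13 + 4) * q ^ 2) * (300 * (2 * (q * (1 / e)))) := h7
      _ = (2 ^ 13 + 4) * 600 * (1 / e) * q ^ 3 := by ring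
      _ ≤ (2 ^ 13 + 4) * 600 * (1 / e) * (c * w) ^ 3 :=
          mul_le_mul_of_nonneg_left h8 (by positivity)
      _ = (2 ^ 13 + 4) * 600 * c ^ 3 * e ^ (-(1 + κ)) := by rw [hpow]; ring

end Pool.Agent.B2v
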