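import Pool.Agent.B2v.Prm
import Pool.Agent.B2v.Stg

/-! Module RPF (MP_491344_nt, variable density): the representation bound in terms of `ε n`. -/

namespace Pool.Agent.B2v

private theorem rpf_mono {s t : ℝ} (hs : Real.exp 1 ≤ s) (hst : s ≤ t) :
    s / Real.log s ≤ t / Real.log t := by
  have he : (0 : ℝ) < Real.exp 1 := Real.exp_pos 1
  have hs0 : 0 < s := by linarith
  have ht0 : 0 < t := by linarith
  have hls : 1 ≤ Real.log s := by
    rw [Real.le_log_iff_exp_le hs0]; exact hs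
  have hlt : 1 ≤ Real.log t := by
    rw [Real.le_log_iff_exp_le ht0]; linarith
  rw [div_le_div_iff₀ (by linarith) (by linarith)]
  have h1 : Real.log (t / s) ≤ t / s - 1 := Real.log_le_sub_one_of_pos (by positivity)
  rw [Real.log_div ht0.ne' hs0.ne'] at h1
  have h2 : s * (Real.log t - Real.log s) ≤ s * (t / s - 1) := mul_le_mul_of_nonneg_left h1 hs0.le
  have h3 : s * (t / s - 1) = t - s := by field_simp
  nlinarith

private theorem rpf_log16 : Real.exp 1 < Real.log 16 := by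
  have h1 : Real.log 16 = 4 * Real.log 2 := by
    rw [show (16 : ℝ) = 2 ^ 4 by norm_num, Real.log_pow]; norm_num
  rw [h1]
  have := Real.exp_one_lt_d9
  have := Real.log_two_gt_d9
  linarith

private theorem rpf_t {x : ℝ} (hx : 0 < x) (hx2 : x < 1 / 16) :
    Real.exp 1 < Real.log (1 / x) := by
  refine rpf_log16.trans ?_
  apply Real.log_lt_log (by norm_num)
  rw [lt_div_iff₀ hx]
  linarith

private theorem rpf_hh_exp (l : ℝ) : hh (Real.exp (-l)) = l / Real.log l := by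
  unfold hh
  rw [one_div, ← Real.exp_neg, neg_neg, Real.log_exp]

private theorem rpf_hh_one {x : ℝ} (hx : 0 < x) (hx2 : x < 1 / 16) : 1 ≤ hh x := by
  have h1 := rpf_t hx hx2
  have h2 := rpf_mono le_rfl h1.le
  rw [Real.log_exp, div_one] at h2
  have h3 : (1 : ℝ) ≤ Real.exp 1 := by
    have := Real.add_one_le_exp (1 : ℝ)
    linarith
  exact h3.trans h2

/-- Module RPF: `t / log t` is increasing for `t ≥ exp 1`. -/
theorem hh_anti {x y : ℝ} (hx : 0 < x) (hxy : x ≤ y) (hy : y < 1 / 16) : hh y ≤ hh x := by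
  have hx16 : x < 1 / 16 := lt_of_le_of_lt hxy hy
  have hy0 : 0 < y := lt_of_lt_of_le hx hxy
  unfold hh
  apply rpf_mono (rpf_t hy0 hy).le
  apply Real.log_le_log (by positivity)
  exact one_div_le_one_div_of_le hx hxy

/-- One step: the terms grow geometrically. -/
private theorem rpf_step {δ l0 : ℝ} (hδ : 0 < δ) (hδ2 : δ < 1 / 2) (hl : Real.exp 3 ≤ l0) (k : ℕ) :
    0 < hh (ee δ l0 k) ∧ hh (ee δ l0 k) * (1 + δ / 2) ≤ hh (ee δ l0 (k + 1)) ∧
      hh (ee δ l0 (k + 1)) ≤ (1 + δ) * hh (ee δ l0 k) := by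
  have he3 : (0 : ℝ) < Real.exp 3 := Real.exp_pos 3
  set l : ℝ := l0 * (1 + δ) ^ k with hlk
  have hl3 : Real.exp 3 ≤ l := by
    have h1 : (1 : ℝ) ≤ (1 + δ) ^ k := one_le_pow₀ (by linarith)
    have : l0 * 1 ≤ l0 * (1 + δ) ^ k := mul_le_mul_of_nonneg_left h1 (by linarith)
    linarith
  have hl0 : 0 < l := by linarith
  have hlog : 3 ≤ Real.log l := by
    rw [Real.le_log_iff_exp_le hl0]; exact hl3
  have e1 : hh (ee δ l0 k) = l / Real.log l := by
    unfold ee
    exact rpf_hh_exp _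
  have e2 : hh (ee δ l0 (k + 1)) = ((1 + δ) * l) / (Real.log (1 + δ) + Real.log l) := by
    unfold ee
    rw [rpf_hh_exp]
    have h1 : l0 * (1 + δ) ^ (k + 1) = (1 + δ) * l := by rw [hlk]; ring
    rw [h1, Real.log_mul (by linarith) hl0.ne']
  have hd0 : 0 ≤ Real.log (1 + δ) := Real.log_nonneg (by linarith)
  have hd1 : Real.log (1 + δ) ≤ δ := by
    have := Real.log_le_sub_one_of_pos (show (0 : ℝ) < 1 + δ by linarith)
    linarith
  rw [e1, e2]
  refine ⟨by positivity, ?_, ?_⟩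
  · rw [div_mul_eq_mul_div, div_le_div_iff₀ (by linarith) (by linarith)]
    have h1 : (1 + δ / 2) * (Real.log (1 + δ) + Real.log l) ≤ (1 + δ) * Real.log l := by
      nlinarith
    calc l * (1 + δ / 2) * (Real.log (1 + δ) + Real.log l)
        = l * ((1 + δ / 2) * (Real.log (1 + δ) + Real.log l)) := by ring
      _ ≤ l * ((1 + δ) * Real.log l) := mul_le_mul_of_nonneg_left h1 hl0.le
      _ = (1 + δ) * l * Real.log l := by ring
  · calc (1 + δ) * l / (Real.log (1 + δ) + Real.log l) ≤ (1 + δ) * l / Real.log l := by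
          apply div_le_div_of_nonneg_left (by positivity) (by linarith) (by linarith)
      _ = (1 + δ) * (l / Real.log l) := by ring

/-- Module RPF.  `λ_k = l0 (1+δ)^k`, `hh (ee δ l0 k) = λ_k / log λ_k`.  If `l0` is large (in terms of
`δ`) then `hh (e_k) ≤ ρ hh (e_(k+1))` with `ρ = 1 / (1 + δ/2)`:
`(1 + log (1+δ) / log λ_k) (1 + δ/2) ≤ 1 + δ`. So the sum is at most `hh (e_j) / (1 - ρ)`. -/
theorem sum_hh {δ : ℝ} (hδ : 0 < δ) (hδ2 : δ < 1 / 2) : ∃ (L0 c : ℝ), 0 < c ∧
    ∀ l0, L0 ≤ l0 → ∀ j : ℕ, ∑ k ∈ Finset.range (j + 1), hh (ee δ l0 k) ≤ c * hh (ee δ l0 j) := by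
  refine ⟨Real.exp 3, (2 + δ) / δ, by positivity, ?_⟩
  intro l0 hl j
  induction j with
  | zero =>
    rw [zero_add, Finset.sum_range_one]
    obtain ⟨h0, -, -⟩ := rpf_step hδ hδ2 hl 0
    have h1 : 1 ≤ (2 + δ) / δ := by
      rw [le_div_iff₀ hδ]; linarith
    exact le_mul_of_one_le_left h0.le h1
  | succ j ih =>
    rw [Finset.sum_range_succ]
    obtain ⟨h0, h1, -⟩ := rpf_step hδ hδ2 hl j
    have h2 : (2 + δ) / δ * hh (ee δ l0 j) ≤ 2 / δ * hh (ee δ l0 (j + 1)) := by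
      calc (2 + δ) / δ * hh (ee δ l0 j) = 2 / δ * (hh (ee δ l0 j) * (1 + δ / 2)) := by
            field_simp
        _ ≤ 2 / δ * hh (ee δ l0 (j + 1)) := by gcongr
    have h3 : (2 + δ) / δ * hh (ee δ l0 (j + 1)) =
        2 / δ * hh (ee δ l0 (j + 1)) + hh (ee δ l0 (j + 1)) := by
      field_simp
    rw [h3]
    linarith

/-- Module RPF.  `l0 = log (1/ε 2) + Λ`.  `j = 0`: `ε n ≤ ε 2`, `hh (e_0) ≤ c hh (ε 2) ≤ c hh (ε n)`
(`l0 ≤ (1 + Λ / log 16) log (1/ε 2)`, `log l0 ≥ log log (1/ε 2)`).  `j ≥ 1`: `n ≥ P j ≥ T (j-1)`, so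
`ε n ≤ ε (T (j-1)) < 2^(j+5) e_(j-1) ≤ e_(j-1)^(1/2)` (`(j+5) log 2 ≤ λ_(j-1) / 2` for `Λ` large), so
`hh (ε n) ≥ hh (e_(j-1)^(1/2)) = (λ/2) / log (λ/2) ≥ hh (e_(j-1)) / 2 ≥ hh (e_j) / (2 (1+δ))`. -/
theorem rep_final {δ : ℝ} (hδ : 0 < δ) (hδ2 : δ < 1 / 2) {C : ℝ} (hC : 0 < C) :
    ∃ Λ0 : ℝ, ∀ Λ, Λ0 ≤ Λ → ∃ C' : ℝ, 0 < C' ∧ ∀ ε : ℕ → ℝ, Prm ε δ →
      ∀ (M P T : ℕ → ℕ) (fin : ℕ → Prop), Sel ε (ee δ (Real.log (1 / ε 2) + Λ)) M P T fin →
      ∀ n j : ℕ, 2 ≤ n → (∀ k < j, fin k) → P j ≤ n →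
        2 * (∏ k ∈ Finset.range j, Real.exp (C * hh (ee δ (Real.log (1 / ε 2) + Λ) k))) *
          Real.exp (C * hh (ee δ (Real.log (1 / ε 2) + Λ) j)) ≤ Real.exp (C' * hh (ε n)) := by
  obtain ⟨L0, c, hc, hsum⟩ := sum_hh hδ hδ2
  refine ⟨max (max L0 (Real.exp 3)) (12 / δ), fun Λ hΛ => ?_⟩
  have hΛ1 : L0 ≤ Λ := (le_max_left _ _).trans ((le_max_left _ _).trans hΛ)
  have hΛ2 : Real.exp 3 ≤ Λ := (le_max_right _ _).trans ((le_max_left _ _).trans hΛ)
  have hΛ3 : 12 / δ ≤ Λ := (le_max_right _ _).trans hΛ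
  have hΛ24 : 24 ≤ Λ := by
    refine le_trans ?_ hΛ3
    rw [le_div_iff₀ hδ]
    linarith
  refine ⟨1 + C * c * (4 + Λ), by positivity, ?_⟩
  intro ε H M P T fin S n j hn hfin hPj
  set l0 : ℝ := Real.log (1 / ε 2) + Λ with hl0
  have hε2 := H.pos 2 le_rfl
  have hε2' := H.lt 2 le_rfl
  have ht := rpf_t hε2 hε2'
  have he1 : (1 : ℝ) ≤ Real.exp 1 := by
    have := Real.add_one_le_exp (1 : ℝ)
    linarith
  set t : ℝ := Real.log (1 / ε 2) with htdef
  have hl0Λ : Λ ≤ l0 := by linarith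
  have hεn := H.pos n hn
  have hεn' := H.lt n hn
  have hh1 := rpf_hh_one hεn hεn'
  -- the main inequality
  have hmain : hh (ee δ l0 j) ≤ (4 + Λ) * hh (ε n) := by
    rcases Nat.eq_zero_or_pos j with hj | hj
    · subst hj
      have h1 : hh (ε 2) ≤ hh (ε n) := hh_anti hεn (H.anti 2 n le_rfl hn) hε2'
      have h2 : hh (ee δ l0 0) = l0 / Real.log l0 := by
        unfold ee
        rw [pow_zero, mul_one]
        exact rpf_hh_exp _
      have h3 : hh (ε 2) = t / Real.log t := rfl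
      have hlt : 0 < Real.log t := Real.log_pos (by linarith)
      have h4 : l0 / Real.log l0 ≤ (1 + Λ) * (t / Real.log t) := by
        have h5 : l0 ≤ (1 + Λ) * t := by nlinarith
        have h6 : Real.log t ≤ Real.log l0 := Real.log_le_log (by linarith) (by linarith)
        calc l0 / Real.log l0 ≤ ((1 + Λ) * t) / Real.log t := by
              apply div_le_div₀ (by nlinarith) h5 hlt h6
          _ = (1 + Λ) * (t / Real.log t) := by ring
      rw [h2]
      rw [h3] at h1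
      have h7 : (1 + Λ) * (t / Real.log t) ≤ (1 + Λ) * hh (ε n) :=
        mul_le_mul_of_nonneg_left h1 (by linarith)
      nlinarith
    · obtain ⟨i, rfl⟩ : ∃ i, j = i + 1 := ⟨j - 1, by omega⟩
      have hfi := hfin i (by omega)
      have hTn : T i ≤ n := (S.TP i hfi).trans hPj
      have hT2 : 2 ≤ T i := by
        have h1 := S.T17 i hfi
        have h2 : 17 ^ 1 ≤ 17 ^ (4 ^ i) := Nat.pow_le_pow_right (by norm_num) (Nat.one_le_pow _ _ (by norm_num))
        omega
      have h1 : ε n ≤ ε (T i) := H.anti (T i) n hT2 hTn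
      have h2 := S.Teps i hfi
      set l : ℝ := l0 * (1 + δ) ^ i with hl
      have hbern : 1 + δ * i ≤ (1 + δ) ^ i := by
        have := one_add_mul_le_pow (show (-2 : ℝ) ≤ δ by linarith) i
        linarith
      have hl1 : Λ * (1 + δ * i) ≤ l := by
        have h3 : 0 ≤ 1 + δ * i := by positivity
        calc Λ * (1 + δ * i) ≤ l0 * (1 + δ * i) := mul_le_mul_of_nonneg_right hl0Λ h3
          _ ≤ l0 * (1 + δ) ^ i := mul_le_mul_of_nonneg_left hbern (by linarith)
      have hlΛ : Λ ≤ l := by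
        have : 0 ≤ Λ * (δ * i) := by positivity
        nlinarith
      have h12 : 12 ≤ Λ * δ := by
        rwa [div_le_iff₀ hδ] at hΛ3
      have hi : ((i : ℝ) + 6) * Real.log 2 ≤ l / 2 := by
        have h3 : Real.log 2 ≤ 1 := by have := Real.log_two_lt_d9; linarith
        have hi0 : (0 : ℝ) ≤ i := Nat.cast_nonneg i
        have h4 : ((i : ℝ) + 6) * Real.log 2 ≤ (i + 6) * 1 :=
          mul_le_mul_of_nonneg_left h3 (by linarith)
        have h5 : 12 * (i : ℝ) ≤ Λ * δ * i := mul_le_mul_of_nonneg_right h12 hi0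
        nlinarith
      have h3 : (2 : ℝ) ^ (i + 6) * ee δ l0 i ≤ Real.exp (-(l / 2)) := by
        have h4 : (2 : ℝ) ^ (i + 6) = Real.exp (((i : ℝ) + 6) * Real.log 2) := by
          rw [mul_comm, ← Real.rpow_def_of_pos (by norm_num)]
          rw [show ((i : ℝ) + 6) = ((i + 6 : ℕ) : ℝ) by push_cast; ring, Real.rpow_natCast]
        have h5 : ee δ l0 i = Real.exp (-l) := rfl
        rw [h4, h5, ← Real.exp_add, Real.exp_le_exp]
        linarith
      have h4 : ε n ≤ Real.exp (-(l / 2)) := by linarith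
      have h5 : Real.exp (-(l / 2)) < 1 / 16 := by
        have h6 : Real.exp (-(l / 2)) ≤ Real.exp (-12) := by
          apply Real.exp_le_exp.mpr; linarith
        have h7 : Real.exp (-12) < 1 / 16 := by
          have h8 : (16 : ℝ) < Real.exp 12 := by
            have h9 : Real.exp 12 = (Real.exp 1) ^ 12 := by
              rw [← Real.exp_nat_mul]; norm_num
            rw [h9]
            have h10 : (2 : ℝ) ≤ Real.exp 1 := by
              have := Real.add_one_le_exp (1 : ℝ)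
              linarith
            calc (16 : ℝ) < 2 ^ 12 := by norm_num
              _ ≤ (Real.exp 1) ^ 12 := by gcongr
          rw [Real.exp_neg, ← one_div]
          exact one_div_lt_one_div_of_lt (by norm_num) h8
        linarith
      have h6 : hh (Real.exp (-(l / 2))) ≤ hh (ε n) := hh_anti hεn h4 h5
      rw [rpf_hh_exp] at h6
      have h7 : hh (ee δ l0 i) = l / Real.log l := by
        unfold ee
        exact rpf_hh_exp _
      have h8 : hh (ee δ l0 i) / 2 ≤ hh (ε n) := by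
        refine le_trans ?_ h6
        rw [h7]
        have h9 : 0 < Real.log (l / 2) := Real.log_pos (by linarith)
        have h10 : Real.log (l / 2) ≤ Real.log l := Real.log_le_log (by linarith) (by linarith)
        calc l / Real.log l / 2 = (l / 2) / Real.log l := by ring
          _ ≤ (l / 2) / Real.log (l / 2) := by
            apply div_le_div_of_nonneg_left (by linarith) h9 h10
      obtain ⟨hp, -, h9⟩ := rpf_step hδ hδ2 (hΛ2.trans hl0Λ) i
      have h10 : (1 + δ) * hh (ee δ l0 i) ≤ 3 / 2 * hh (ee δ l0 i) :=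
        mul_le_mul_of_nonneg_right (by linarith) hp.le
      have h11 : 0 ≤ Λ * hh (ε n) := by positivity
      nlinarith
  -- conclusion
  have hprod : ∏ k ∈ Finset.range j, Real.exp (C * hh (ee δ l0 k)) =
      Real.exp (∑ k ∈ Finset.range j, C * hh (ee δ l0 k)) := (Real.exp_sum _ _).symm
  have h2 : (2 : ℝ) = Real.exp (Real.log 2) := (Real.exp_log (by norm_num)).symm
  rw [hprod]
  nth_rewrite 1 [h2]
  rw [← Real.exp_add, ← Real.exp_add, Real.exp_le_exp]
  have h3 := hsum l0 (hΛ1.trans hl0Λ) j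
  rw [Finset.sum_range_succ] at h3
  rw [← Finset.mul_sum]
  have h4 : C * (∑ k ∈ Finset.range j, hh (ee δ l0 k) + hh (ee δ l0 j)) ≤
      C * (c * ((4 + Λ) * hh (ε n))) := by
    gcongr
    exact h3.trans (mul_le_mul_of_nonneg_left hmain hc.le)
  have h5 : Real.log 2 ≤ hh (ε n) := by
    have := Real.log_two_lt_d9
    linarith
  calc Real.log 2 + C * ∑ k ∈ Finset.range j, hh (ee δ l0 k) + C * hh (ee δ l0 j)
      = Real.log 2 + C * (∑ k ∈ Finset.range j, hh (ee δ l0 k) + hh (ee δ l0 j)) := by ring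
    _ ≤ hh (ε n) + C * (c * ((4 + Λ) * hh (ε n))) := by linarith
    _ = (1 + C * c * (4 + Λ)) * hh (ε n) := by ring

end Pool.Agent.B2v
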