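import Pool.Agent.B2v.Prm

/-! Module SEL (MP_491344_nt, variable density): the selection of the stages. -/

namespace Pool.Agent.B2v

/-- place values -/
def PP (T : ℕ → ℕ) : ℕ → ℕ
  | 0 => 1
  | i + 1 => 4 * ((T i + 4 * PP T i - 1) / (4 * PP T i)) * PP T i

theorem ee_step {δ l0 : ℝ} (hδ : 0 < δ) (h2 : Real.log 16 ≤ δ * l0) (i : ℕ) :
    16 * ee δ l0 (i + 1) ≤ ee δ l0 i := by
  have hlog16 : 0 < Real.log 16 := Real.log_pos (by norm_num)
  have h1 : (1 : ℝ) ≤ (1 + δ) ^ i := one_le_pow₀ (by linarith)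
  have h3 : l0 * (1 + δ) ^ (i + 1) = l0 * (1 + δ) ^ i + δ * l0 * (1 + δ) ^ i := by
    rw [pow_succ]; ring
  have h4 : Real.log 16 ≤ δ * l0 * (1 + δ) ^ i := by
    calc Real.log 16 ≤ δ * l0 := h2
      _ = δ * l0 * 1 := by ring
      _ ≤ _ := mul_le_mul_of_nonneg_left h1 (by linarith)
  unfold ee
  calc 16 * Real.exp (-(l0 * (1 + δ) ^ (i + 1)))
      = Real.exp (Real.log 16 - l0 * (1 + δ) ^ (i + 1)) := by
        rw [Real.exp_sub, Real.exp_log (by norm_num), Real.exp_neg]; ring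
    _ ≤ Real.exp (-(l0 * (1 + δ) ^ i)) := by
        refine Real.exp_le_exp.2 ?_
        rw [h3]
        linarith

/-- Module SEL.  `fin i := ∃ N ≥ 2, ε N < 2^(i+6) e_i`, `T i` the least such `N`,
`P 0 = 1`, `M i = ⌈T i / (4 P i)⌉` (`0` if not `fin i`), `P (i+1) = 4 M i P i`.
`e_(i+1) ≤ e_i / 16` (`δ l0 ≥ log 16`) gives `dn` and `T i ≤ T (i+1)`.
`T 0 ≥ 17`: for `N ≤ 16`, `ε N ≥ ε 2 log 2 / log N ≥ ε 2 / 4 ≥ 2^6 e_0`.
`T (i+1) ≥ (T i)^4`: `ε (T i) log (T i) ≥ ε (T i - 1) log (T i - 1) ≥ 2^(i+6) e_i log (T i - 1) ≥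
2^(i+5) e_i log (T i)`; `2^(i+7) e_(i+1) log T (i+1) > ε (T (i+1)) log T (i+1) ≥ ε (T i) log (T i)`, so
`log T (i+1) ≥ (e_i / (4 e_(i+1))) log (T i) ≥ 4 log (T i)`.
`T i ≤ 4 P i M i < T i + 4 P i`; `i = 0`: `P 1 ≤ T 0 + 4 ≤ (T 0)^2`, `M 0 ≥ 5`; `i ≥ 1`:
`P i ≤ T (i-1)^2`, `P i ^ 2 ≤ T i`, so `P (i+1) ≤ T i + 4 P i ≤ (T i)^2` and `M i ≥ P i / 4 ≥ 3`. -/
theorem exists_sel {ε : ℕ → ℝ} {δ : ℝ} (H : Prm ε δ) (hδ : 0 < δ) (hδ2 : δ < 1 / 2) {l0 : ℝ}
    (h1 : 2 ^ 8 * Real.exp (-l0) ≤ ε 2) (h2 : Real.log 16 ≤ δ * l0) :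
    ∃ (M P T : ℕ → ℕ) (fin : ℕ → Prop), Sel ε (ee δ l0) M P T fin := by
  classical
  have hpos : ∀ i, 0 < ee δ l0 i := fun i => Real.exp_pos _
  set fin : ℕ → Prop := fun i => ∃ N, 2 ≤ N ∧ ε N < 2 ^ (i + 6) * ee δ l0 i with hfin
  set T : ℕ → ℕ := fun i => if h : fin i then Nat.find h else 0 with hT
  have hT1 : ∀ i, fin i → 2 ≤ T i ∧ ε (T i) < 2 ^ (i + 6) * ee δ l0 i := by
    intro i hi
    have h := Nat.find_spec hi
    simp only [hT, dif_pos hi]
    exact h
  have hT2 : ∀ i, fin i → ∀ N, N < T i → 2 ≤ N → 2 ^ (i + 6) * ee δ l0 i ≤ ε N := by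
    intro i hi N hN hN2
    by_contra hcon
    push Not at hcon
    simp only [hT, dif_pos hi] at hN
    exact Nat.find_min hi hN ⟨hN2, hcon⟩
  have hT3 : ∀ i, ¬ fin i → T i = 0 := by
    intro i hi
    simp only [hT, dif_neg hi]
  -- powers of two
  have hstep : ∀ i, 2 ^ (i + 7) * ee δ l0 (i + 1) ≤ 2 ^ (i + 3) * ee δ l0 i := by
    intro i
    have := ee_step hδ h2 i
    calc (2 : ℝ) ^ (i + 7) * ee δ l0 (i + 1) = 2 ^ (i + 3) * (16 * ee δ l0 (i + 1)) := by
          rw [show i + 7 = (i + 3) + 4 by ring, pow_add]; ring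
      _ ≤ _ := mul_le_mul_of_nonneg_left this (by positivity)
  have hstep2 : ∀ i, 2 ^ (i + 3) * ee δ l0 i < 2 ^ (i + 6) * ee δ l0 i := by
    intro i
    refine mul_lt_mul_of_pos_right ?_ (hpos i)
    exact pow_lt_pow_right₀ (by norm_num) (by omega)
  have hdn : ∀ i, fin (i + 1) → fin i := by
    rintro i ⟨N, hN, hN2⟩
    exact ⟨N, hN, (hN2.trans_le (hstep i)).trans (hstep2 i)⟩
  have hT0 : fin 0 → 17 ≤ T 0 := by
    intro h0
    obtain ⟨h3, h4⟩ := hT1 0 h0
    by_contra hcon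
    push Not at hcon
    have h5 := H.gam 2 (T 0) le_rfl h3
    have hl2 : 0 < Real.log 2 := Real.log_pos (by norm_num)
    have hl16 : Real.log ((T 0 : ℕ) : ℝ) ≤ 4 * Real.log 2 := by
      calc Real.log ((T 0 : ℕ) : ℝ) ≤ Real.log (2 ^ 4) :=
            Real.log_le_log (by exact_mod_cast (by omega : 0 < T 0))
              (by norm_num; exact_mod_cast (by omega : T 0 ≤ 16))
        _ = 4 * Real.log 2 := by rw [Real.log_pow]; norm_num
    have hε0 := H.pos (T 0) h3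
    have h6 : ε 2 * Real.log 2 ≤ (4 * ε (T 0)) * Real.log 2 := by
      calc ε 2 * Real.log 2 ≤ ε (T 0) * Real.log ((T 0 : ℕ) : ℝ) := by exact_mod_cast h5
        _ ≤ ε (T 0) * (4 * Real.log 2) := mul_le_mul_of_nonneg_left hl16 hε0.le
        _ = _ := by ring
    have h7 := le_of_mul_le_mul_right h6 hl2
    have h8 : ee δ l0 0 = Real.exp (-l0) := by unfold ee; simp
    rw [h8] at h4
    norm_num at h4 h1
    linarith
  have hT4 : ∀ i, fin (i + 1) → 17 ≤ T i → T i ^ 4 < T (i + 1) := by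
    intro i hi h17
    have hi0 := hdn i hi
    obtain ⟨h3, h4⟩ := hT1 (i + 1) hi
    have hle : T i ≤ T (i + 1) := by
      by_contra hcon
      push Not at hcon
      have h5 := hT2 i hi0 _ hcon h3
      have := (h4.trans_le (hstep i)).trans (hstep2 i)
      linarith
    have h5 := hT2 i hi0 (T i - 1) (by omega) (by omega)
    have h6 := H.gam (T i - 1) (T i) (by omega) (by omega)
    have h7 := H.gam (T i) (T (i + 1)) (by omega) hle
    have ha : (0 : ℝ) < (T i - 1 : ℕ) := by exact_mod_cast (by omega : 0 < T i - 1)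
    have hb : (0 : ℝ) < T i := by exact_mod_cast (by omega : 0 < T i)
    have hc : (0 : ℝ) < T (i + 1) := by exact_mod_cast (by omega : 0 < T (i + 1))
    have hlogb : 0 < Real.log (T i) := Real.log_pos (by exact_mod_cast (by omega : 1 < T i))
    have h8 : Real.log (T i) ≤ 2 * Real.log ((T i - 1 : ℕ) : ℝ) := by
      have h9 : T i ≤ (T i - 1) ^ 2 := by
        obtain ⟨t, ht⟩ : ∃ t, T i = t + 2 := ⟨T i - 2, by omega⟩
        rw [ht]
        have : t + 2 - 1 = t + 1 := by omega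
        rw [this]
        nlinarith
      calc Real.log (T i) ≤ Real.log (((T i - 1 : ℕ) : ℝ) ^ 2) :=
            Real.log_le_log hb (by exact_mod_cast h9)
        _ = 2 * Real.log ((T i - 1 : ℕ) : ℝ) := by rw [Real.log_pow]; norm_num
    have h9 : 2 ^ (i + 5) * ee δ l0 i * Real.log (T i) ≤ ε (T i) * Real.log (T i) := by
      refine le_trans ?_ h6
      have h10 : 2 ^ (i + 6) * ee δ l0 i * Real.log ((T i - 1 : ℕ) : ℝ) ≤
          ε (T i - 1) * Real.log ((T i - 1 : ℕ) : ℝ) := by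
        refine mul_le_mul_of_nonneg_right h5 ?_
        linarith
      refine le_trans ?_ h10
      have h11 : 0 < 2 ^ (i + 5) * ee δ l0 i := mul_pos (by positivity) (hpos i)
      calc 2 ^ (i + 5) * ee δ l0 i * Real.log (T i)
          ≤ 2 ^ (i + 5) * ee δ l0 i * (2 * Real.log ((T i - 1 : ℕ) : ℝ)) :=
            mul_le_mul_of_nonneg_left h8 h11.le
        _ = _ := by rw [show i + 6 = (i + 5) + 1 by ring, pow_succ]; ring
    have hlogc : 0 < Real.log (T (i + 1)) :=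
      Real.log_pos (by exact_mod_cast (by omega : 1 < T (i + 1)))
    have h10 : 2 ^ (i + 5) * ee δ l0 i * Real.log (T i) <
        2 ^ (i + 3) * ee δ l0 i * Real.log (T (i + 1)) := by
      calc 2 ^ (i + 5) * ee δ l0 i * Real.log (T i) ≤ ε (T i) * Real.log (T i) := h9
        _ ≤ ε (T (i + 1)) * Real.log (T (i + 1)) := h7
        _ < 2 ^ (i + 7) * ee δ l0 (i + 1) * Real.log (T (i + 1)) :=
            mul_lt_mul_of_pos_right h4 hlogc
        _ ≤ _ := mul_le_mul_of_nonneg_right (hstep i) hlogc.le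
    have h11 : 0 < 2 ^ (i + 3) * ee δ l0 i := mul_pos (by positivity) (hpos i)
    have h12 : 4 * Real.log (T i) < Real.log (T (i + 1)) := by
      have h13 : 2 ^ (i + 3) * ee δ l0 i * (4 * Real.log (T i)) <
          2 ^ (i + 3) * ee δ l0 i * Real.log (T (i + 1)) := by
        calc 2 ^ (i + 3) * ee δ l0 i * (4 * Real.log (T i))
            = 2 ^ (i + 5) * ee δ l0 i * Real.log (T i) := by
              rw [show i + 5 = (i + 3) + 2 by ring, pow_add]; ring
          _ < _ := h10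
      exact lt_of_mul_lt_mul_left h13 h11.le
    have h13 : Real.log ((T i : ℝ) ^ 4) < Real.log (T (i + 1)) := by
      rw [Real.log_pow]
      push_cast
      exact h12
    have h14 := (Real.log_lt_log_iff (by positivity) hc).1 h13
    exact_mod_cast h14
  have h17 : ∀ i, fin i → 17 ^ (4 ^ i) ≤ T i := by
    intro i
    induction i with
    | zero => intro h0; simpa using hT0 h0
    | succ i ih =>
      intro hi
      have h3 := ih (hdn i hi)
      have h4 : 17 ≤ T i := by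
        have : 17 ^ 1 ≤ 17 ^ (4 ^ i) :=
          Nat.pow_le_pow_right (by norm_num) (Nat.one_le_pow _ _ (by norm_num))
        omega
      have h5 := hT4 i hi h4
      calc 17 ^ (4 ^ (i + 1)) = (17 ^ (4 ^ i)) ^ 4 := by rw [← pow_mul, pow_succ]
        _ ≤ T i ^ 4 := Nat.pow_le_pow_left h3 4
        _ ≤ T (i + 1) := h5.le
  have h17' : ∀ i, fin i → 17 ≤ T i := by
    intro i hi
    have h3 := h17 i hi
    have : 17 ^ 1 ≤ 17 ^ (4 ^ i) :=
      Nat.pow_le_pow_right (by norm_num) (Nat.one_le_pow _ _ (by norm_num))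
    omega
  -- the place values
  have hdiv : ∀ t P : ℕ, 1 ≤ P → t ≤ 4 * ((t + 4 * P - 1) / (4 * P)) * P ∧
      4 * ((t + 4 * P - 1) / (4 * P)) * P ≤ t + 4 * P - 1 := by
    intro t P hP
    have e1 : 4 * ((t + 4 * P - 1) / (4 * P)) * P = 4 * P * ((t + 4 * P - 1) / (4 * P)) := by ring
    rw [e1]
    have e2 := Nat.mul_div_le (t + 4 * P - 1) (4 * P)
    have e3 := Nat.lt_mul_div_succ (t + 4 * P - 1) (show 0 < 4 * P by omega)
    rw [Nat.mul_add, Nat.mul_one] at e3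
    constructor
    · omega
    · exact e2
  have hB : ∀ i, fin i → 1 ≤ PP T i ∧ 3 ≤ (T i + 4 * PP T i - 1) / (4 * PP T i) ∧
      T i ≤ PP T (i + 1) ∧ PP T (i + 1) ≤ T i ^ 2 := by
    intro i
    induction i with
    | zero =>
      intro h0
      have h3 := hT0 h0
      have e1 : PP T 0 = 1 := rfl
      obtain ⟨h4, h5⟩ := hdiv (T 0) 1 le_rfl
      have e2 : PP T (0 + 1) = 4 * ((T 0 + 4 * PP T 0 - 1) / (4 * PP T 0)) * PP T 0 := rfl
      rw [e2, e1]
      refine ⟨le_rfl, ?_, h4, ?_⟩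
      · rw [Nat.le_div_iff_mul_le (by norm_num)]
        omega
      · refine h5.trans ?_
        have h6 : T 0 + 3 ≤ T 0 ^ 2 := by nlinarith
        omega
    | succ i ih =>
      intro hi
      have hi0 := hdn i hi
      obtain ⟨-, -, h5, h6⟩ := ih hi0
      have h7 := h17' i hi0
      have h8 := hT4 i hi h7
      have hP17 : 17 ≤ PP T (i + 1) := by omega
      have hPsq : PP T (i + 1) ^ 2 ≤ T (i + 1) := by
        calc PP T (i + 1) ^ 2 ≤ (T i ^ 2) ^ 2 := Nat.pow_le_pow_left h6 2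
          _ = T i ^ 4 := by rw [← pow_mul]
          _ ≤ T (i + 1) := h8.le
      obtain ⟨h9, h10⟩ := hdiv (T (i + 1)) (PP T (i + 1)) (by omega)
      have e2 : PP T (i + 1 + 1) =
          4 * ((T (i + 1) + 4 * PP T (i + 1) - 1) / (4 * PP T (i + 1))) * PP T (i + 1) := rfl
      rw [e2]
      refine ⟨by omega, ?_, h9, ?_⟩
      · rw [Nat.le_div_iff_mul_le (by omega)]
        nlinarith
      · refine h10.trans ?_
        have h11 : T (i + 1) + 4 * PP T (i + 1) - 1 ≤ T (i + 1) + T (i + 1) := by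
          have : 4 * PP T (i + 1) ≤ PP T (i + 1) ^ 2 := by nlinarith
          omega
        refine h11.trans ?_
        have h12 := h17' (i + 1) hi
        nlinarith
  refine ⟨fun i => (T i + 4 * PP T i - 1) / (4 * PP T i), PP T, T, fin, ?_⟩
  refine ⟨rfl, fun i => rfl, ?_, fun i hi => (hB i hi).2.1, hdn, h17, ?_, fun i hi => (hT1 i hi).2,
    fun i hi => (hB i hi).2.2.1, fun i hi => (hB i hi).2.2.2⟩
  · intro i hi
    rw [hT3 i hi, Nat.zero_add]
    rcases Nat.eq_zero_or_pos (PP T i) with h | h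
    · rw [h]
    · exact Nat.div_eq_of_lt (by omega)
  · intro i N hN h
    by_cases hi : fin i
    · exact hT2 i hi N (h hi) hN
    · by_contra hcon
      push Not at hcon
      exact hi ⟨N, hN, hcon⟩

end Pool.Agent.B2v
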