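import Pool.Agent.B2v.Stg
import Pool.Agent.B2v.Sel
import Pool.Agent.B2v.Rpf
import Pool.Agent.B2v.Cna
import Pool.Agent.B2v.Cnb
import Pool.Agent.B2v.Cnc

/-! Module FIN (MP_491344_nt, variable density): the theorem. -/

namespace Pool.Agent.B2v

theorem rp_mono {A B : Set ℕ} (h : A ⊆ B) (n : ℕ) : rp A n ≤ rp B n := by
  unfold rp
  refine Set.ncard_le_ncard ?_ (rp_finite B B n)
  rintro ⟨x, y⟩ ⟨hx, hy, hxy⟩
  exact ⟨h hx, h hy, hxy⟩

theorem PV_eq_P {ε e : ℕ → ℝ} {M P T : ℕ → ℕ} {fin : ℕ → Prop} (S : Sel ε e M P T fin) (j : ℕ) :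
    PV M 0 j = P j := by
  induction j with
  | zero => rw [PV_zero, S.P0]
  | succ j ih =>
    have h1 : PV M 0 (j + 1) = PV M 0 j * (4 * M j) := by
      unfold PV
      rw [Finset.prod_range_succ, zero_add]
    rw [h1, ih, S.Ps]
    ring

/-- the theorem in terms of `ε` -/
theorem main {δ : ℝ} (hδ : 0 < δ) (hδ2 : δ < 1 / 2) : ∃ C : ℝ, 0 < C ∧
    ∀ ε : ℕ → ℝ, Prm ε δ → ∃ A : Set ℕ,
      (∀ n : ℕ, 2 ≤ n → (rp A n : ℝ) ≤ Real.exp (C * hh (ε n))) ∧
      ∃ N0 : ℕ, ∀ N : ℕ, N0 ≤ N → (N : ℝ) ^ (1 / 2 - ε N) ≤ ((A ∩ Set.Icc 1 N).ncard : ℝ) := by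
  obtain ⟨C, hC, hst⟩ := stage
  obtain ⟨K, hK, hst⟩ := hst δ hδ
  obtain ⟨Λ0, hΛ0⟩ := rep_final hδ hδ2 hC
  obtain ⟨Λ, hΛ⟩ : ∃ Λ : ℝ, Λ = max Λ0 (max (8 * Real.log 2) (Real.log 16 / δ)) := ⟨_, rfl⟩
  have hΛ1 : Λ0 ≤ Λ := by rw [hΛ]; exact le_max_left _ _
  have hΛ2 : 8 * Real.log 2 ≤ Λ := by rw [hΛ]; exact (le_max_left _ _).trans (le_max_right _ _)
  have hΛ3 : Real.log 16 / δ ≤ Λ := by rw [hΛ]; exact (le_max_right _ _).trans (le_max_right _ _)
  obtain ⟨C', hC', hrep⟩ := hΛ0 Λ hΛ1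
  refine ⟨C', hC', fun ε H => ?_⟩
  have hε2 := H.pos 2 le_rfl
  have hε2' := H.lt 2 le_rfl
  have hl2 : 0 < Real.log 2 := Real.log_pos (by norm_num)
  have hlog1 : 0 < Real.log (1 / ε 2) := by
    refine Real.log_pos ?_
    rw [lt_div_iff₀ hε2]
    linarith
  obtain ⟨l0, hl0⟩ : ∃ l0 : ℝ, l0 = Real.log (1 / ε 2) + Λ := ⟨_, rfl⟩
  have hl0pos : 0 < l0 := by rw [hl0]; linarith
  have h1 : 2 ^ 8 * Real.exp (-l0) ≤ ε 2 := by
    have e1 : Real.exp (-l0) = ε 2 * Real.exp (-Λ) := by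
      rw [hl0, neg_add, Real.exp_add, one_div, Real.log_inv, neg_neg, Real.exp_log hε2]
    have e2 : Real.exp (-Λ) ≤ 1 / 2 ^ 8 := by
      calc Real.exp (-Λ) ≤ Real.exp (-(8 * Real.log 2)) := Real.exp_le_exp.2 (by linarith)
        _ = 1 / 2 ^ 8 := by
          rw [Real.exp_neg, show (8 : ℝ) * Real.log 2 = Real.log (2 ^ 8) by
            rw [Real.log_pow]; norm_num, Real.exp_log (by norm_num)]
          norm_num
    rw [e1]
    calc 2 ^ 8 * (ε 2 * Real.exp (-Λ)) ≤ 2 ^ 8 * (ε 2 * (1 / 2 ^ 8)) := by gcongr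
      _ = ε 2 := by ring
  have h2 : Real.log 16 ≤ δ * l0 := by
    rw [div_le_iff₀ hδ] at hΛ3
    rw [hl0]
    nlinarith
  obtain ⟨M, P, T, fin, S⟩ := exists_sel H hδ hδ2 h1 h2
  have hpos : ∀ i, 0 < ee δ l0 i := fun i => Real.exp_pos _
  have hlt : ∀ i, ee δ l0 i < 1 / 16 := by
    intro i
    have e1 : ee δ l0 i ≤ Real.exp (-l0) := by
      unfold ee
      refine Real.exp_le_exp.2 ?_
      have : (1 : ℝ) ≤ (1 + δ) ^ i := one_le_pow₀ (by linarith)
      nlinarith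
    have e2 : Real.exp (-l0) ≤ ε 2 := by
      have := Real.exp_pos (-l0)
      linarith
    linarith
  choose A hA1 hA2 using fun i => hst (ee δ l0 i) (hpos i) (hlt i)
  have hhpos : ∀ i, 0 < hh (ee δ l0 i) := by
    intro i
    have e1 : 16 < 1 / ee δ l0 i := by
      rw [lt_div_iff₀ (hpos i)]
      have := hlt i
      linarith
    have hlog2a : (0.6931471803 : ℝ) < Real.log 2 := Real.log_two_gt_d9
    have e2 : 4 * Real.log 2 < Real.log (1 / ee δ l0 i) := by
      rw [show 4 * Real.log 2 = Real.log 16 by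
        rw [show (16 : ℝ) = 2 ^ 4 by norm_num, Real.log_pow]; norm_num]
      exact Real.log_lt_log (by norm_num) e1
    unfold hh
    exact div_pos (by linarith) (Real.log_pos (by linarith))
  set R : ℕ → ℝ := fun i => Real.exp (C * hh (ee δ l0 i)) with hR
  have hR1 : ∀ i, 1 ≤ R i := fun i => Real.one_le_exp (by have := hhpos i; positivity)
  have St : Stages (FF A M) (TT A M) M R R := by
    refine ⟨fun i s hs => hs.2, ?_, ?_, hR1, hR1, ?_, ?_⟩
    · rintro i x ⟨hx, hx2⟩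
      exact ⟨hx, Or.inr hx2⟩
    · rintro i ⟨s, hs⟩ x ⟨hx, hx2⟩
      rcases hx2 with hx2 | hx2
      · have := hs.2
        omega
      · exact hx2
    · intro i n
      refine le_trans ?_ (hA1 i n)
      exact_mod_cast rp_mono (A := FF A M i) (B := A i) (fun x hx => hx.1) n
    · intro i n
      refine le_trans ?_ (hA1 i n)
      exact_mod_cast rp_mono (A := TT A M i) (B := A i) (fun x hx => hx.1) n
  have hfin : ∀ k, (FF A M k).Nonempty → fin k := by
    rintro k ⟨s, hs⟩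
    by_contra hcon
    have := S.Mf k hcon
    have := hs.2
    omega
  refine ⟨⋃ m, glue (FF A M) (TT A M) M m 0, ?_, ?_⟩
  · intro n hn
    refine glue_rep_union St n _ (Real.exp_pos _).le ?_
    intro j hj hjn
    rw [PV_eq_P S] at hjn
    have S' : Sel ε (ee δ (Real.log (1 / ε 2) + Λ)) M P T fin := by rw [← hl0]; exact S
    have := hrep ε H M P T fin S' n j hn (fun k hk => hfin k (hj k hk)) hjn
    rw [← hl0] at this
    exact this
  · obtain ⟨N1, hN1⟩ := cnc H hδ hδ2 hl0pos hK.le S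
    refine ⟨max N1 6, fun N hN => ?_⟩
    have hNN1 : N1 ≤ N := (le_max_left _ _).trans hN
    have hN6 : 6 ≤ N := (le_max_right _ _).trans hN
    -- the stage of N
    have hex : ∃ j, (∀ k < j, fin k) ∧ P j ≤ N ∧ (fin j → N < P (j + 1)) := by
      by_contra hcon
      push Not at hcon
      have hall : ∀ j, (∀ k < j, fin k) ∧ P j ≤ N := by
        intro j
        induction j with
        | zero => exact ⟨fun k hk => by omega, by rw [S.P0]; omega⟩
        | succ j ih =>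
          obtain ⟨h3, h4⟩ := hcon j ih.1 ih.2
          refine ⟨fun k hk => ?_, h4⟩
          rcases Nat.lt_succ_iff_lt_or_eq.1 hk with h5 | h5
          · exact ih.1 k h5
          · rw [h5]; exact h3
      have h5 := (hall (N + 1)).2
      have h6 := (hall (N + 1)).1 N (Nat.lt_succ_self N)
      have h7 := S.TP N h6
      have h8 := S.T17 N h6
      have h9 : N < 17 ^ (4 ^ N) := by
        calc N < 4 ^ N := Nat.lt_pow_self (by norm_num)
          _ < 17 ^ (4 ^ N) := Nat.lt_pow_self (by norm_num)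
      omega
    obtain ⟨j, hj, hPN, hPN2⟩ := hex
    have hA := cna S (K := K) (κ := δ) hK.le hpos hlt St hA2 hj hN6 hPN hPN2
    have hB := cnb H S hpos hj hN6 hPN hPN2
    have hCc := hN1 N j hNN1 hj hPN
    have hlogN : 0 ≤ Real.log (N : ℝ) := Real.log_nonneg (by exact_mod_cast (by omega : 1 ≤ N))
    have hΓ : 0 ≤ ε N * Real.log N := mul_nonneg (H.pos N (by omega)).le hlogN
    have hN0 : (0 : ℝ) < N := by exact_mod_cast (by omega : 0 < N)
    refine le_trans ?_ hA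
    rw [Real.rpow_def_of_pos hN0]
    refine Real.exp_le_exp.2 ?_
    have e1 : Real.log N * (1 / 2 - ε N) = 1 / 2 * Real.log N - ε N * Real.log N := by ring
    rw [e1]
    linarith

end Pool.Agent.B2v
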