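import Mathlib

/-! Module GL1 (MP_491344_nt, variable density): gluing of stages, representation bound.

Stage `i` has a radix `4 * M i`, a set `F i ⊆ [0, M i)` of full digits and a set `T i ⊇ F i` of top
digits (`T i ⊆ [0, M i)` unless `F i = ∅`, i.e. unless `i` is the last stage).  Digits are coded as
odd numbers `2 x + 1`. -/

namespace Pool.Agent.B2v

/-- ordered representation count -/
noncomputable def rp (A : Set ℕ) (n : ℕ) : ℕ :=
  Set.ncard {x : ℕ × ℕ | x.1 ∈ A ∧ x.2 ∈ A ∧ x.1 + x.2 = n}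

/-- the glued sets with at most `m` further stages, starting at stage `i` -/
def glue (F T : ℕ → Set ℕ) (M : ℕ → ℕ) : ℕ → ℕ → Set ℕ
  | 0, i => {y | ∃ x ∈ T i, y = 2 * x + 1}
  | m + 1, i => {y | ∃ x ∈ T i, y = 2 * x + 1} ∪
      {y | ∃ s ∈ F i, ∃ b ∈ glue F T M m (i + 1), y = (2 * s + 1) + 4 * M i * b}

/-- the place value of stage `i + j` seen from stage `i` -/
def PV (M : ℕ → ℕ) (i j : ℕ) : ℕ := ∏ k ∈ Finset.range j, 4 * M (i + k)

/-- the data of the gluing -/
structure Stages (F T : ℕ → Set ℕ) (M : ℕ → ℕ) (R' R : ℕ → ℝ) : Prop where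
  hF : ∀ i, ∀ s ∈ F i, s < M i
  hFT : ∀ i, F i ⊆ T i
  hT : ∀ i, (F i).Nonempty → ∀ x ∈ T i, x < M i
  hR'1 : ∀ i, 1 ≤ R' i
  hR1 : ∀ i, 1 ≤ R i
  hR' : ∀ i n, (rp (F i) n : ℝ) ≤ R' i
  hR : ∀ i n, (rp (T i) n : ℝ) ≤ R i

/-- the pairs with given sum form a finite set -/
theorem rp_finite (A B : Set ℕ) (n : ℕ) :
    {x : ℕ × ℕ | x.1 ∈ A ∧ x.2 ∈ B ∧ x.1 + x.2 = n}.Finite := by
  refine (Set.finite_Icc (0, 0) (n, n)).subset ?_
  rintro ⟨x, y⟩ ⟨-, -, h⟩
  simp only at h
  simp only [Set.mem_Icc, Prod.mk_le_mk]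
  omega

theorem PV_zero (M : ℕ → ℕ) (i : ℕ) : PV M i 0 = 1 := by simp [PV]

theorem PV_succ (M : ℕ → ℕ) (i j : ℕ) : PV M i (j + 1) = 4 * M i * PV M (i + 1) j := by
  unfold PV
  rw [Finset.prod_range_succ']
  rw [mul_comm]
  congr 1
  refine Finset.prod_congr rfl fun k _ => ?_
  rw [show i + (k + 1) = i + 1 + k by ring]

theorem glue_odd (F T : ℕ → Set ℕ) (M : ℕ → ℕ) (m : ℕ) : ∀ i, ∀ y ∈ glue F T M m i, y % 2 = 1 := by
  induction m with
  | zero =>
    rintro i y ⟨x, -, rfl⟩
    omega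
  | succ m ih =>
    rintro i y (⟨x, -, rfl⟩ | ⟨s, -, b, -, rfl⟩)
    · omega
    · have : 4 * M i * b = 2 * (2 * M i * b) := by ring
      omega

/-- pairs from a set of coded digits -/
private theorem rp_code (T : Set ℕ) (n : ℕ) {R : ℝ} (hR : ∀ n, (rp T n : ℝ) ≤ R) (hR0 : 0 ≤ R) :
    (rp {y | ∃ x ∈ T, y = 2 * x + 1} n : ℝ) ≤ R := by
  refine le_trans ?_ (hR ((n - 2) / 2))
  have h : {x : ℕ × ℕ | x.1 ∈ {y | ∃ x ∈ T, y = 2 * x + 1} ∧ x.2 ∈ {y | ∃ x ∈ T, y = 2 * x + 1} ∧
      x.1 + x.2 = n} ⊆ (fun q : ℕ × ℕ => (2 * q.1 + 1, 2 * q.2 + 1)) ''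
      {x : ℕ × ℕ | x.1 ∈ T ∧ x.2 ∈ T ∧ x.1 + x.2 = (n - 2) / 2} := by
    rintro ⟨a, b⟩ ⟨⟨x, hx, hax⟩, ⟨y, hy, hby⟩, h⟩
    simp only at hax hby h
    refine ⟨(x, y), ⟨hx, hy, ?_⟩, ?_⟩
    · simp only; omega
    · simp [hax, hby]
  have hfin := rp_finite T T ((n - 2) / 2)
  have h2 := Set.ncard_le_ncard h (hfin.image _)
  have h3 := Set.ncard_image_le (f := fun q : ℕ × ℕ => (2 * q.1 + 1, 2 * q.2 + 1)) hfin
  unfold rp
  exact_mod_cast h2.trans h3

/-- decomposition of the elements of the glued set -/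
private theorem glue_dec {F T : ℕ → Set ℕ} {M : ℕ → ℕ} {R' R : ℕ → ℝ} (S : Stages F T M R' R)
    {m i : ℕ} (hne : (F i).Nonempty) {y : ℕ} (hy : y ∈ glue F T M (m + 1) i) :
    ∃ x < M i, ∃ b, y = (2 * x + 1) + 4 * M i * b ∧
      ((b = 0 ∧ x ∈ T i) ∨ (b ∈ glue F T M m (i + 1) ∧ x ∈ F i)) := by
  rcases hy with ⟨x, hx, rfl⟩ | ⟨s, hs, b, hb, rfl⟩
  · exact ⟨x, S.hT i hne x hx, 0, by ring, Or.inl ⟨rfl, hx⟩⟩
  · exact ⟨s, S.hF i s hs, b, rfl, Or.inr ⟨hb, hs⟩⟩

/-- sum of two elements -/
private theorem glue_sum {Mi x x' b b' n : ℕ} (hx : x < Mi) (hx' : x' < Mi)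
    (h : ((2 * x + 1) + 4 * Mi * b) + ((2 * x' + 1) + 4 * Mi * b') = n) :
    n / (4 * Mi) = b + b' ∧ 2 * (x + x') + 2 = n % (4 * Mi) := by
  have h1 : n = (2 * (x + x') + 2) + 4 * Mi * (b + b') := by rw [← h]; ring
  have h2 : 2 * (x + x') + 2 < 4 * Mi := by omega
  have h3 : 0 < 4 * Mi := by omega
  constructor
  · rw [h1, Nat.add_mul_div_left _ _ h3, Nat.div_eq_of_lt h2, zero_add]
  · rw [h1, Nat.add_mul_mod_self_left, Nat.mod_eq_of_lt h2]

/-- Module GL1.  Induction on `m` (all `i n X`).  All elements of `glue F T M m i` are odd.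
If `F i = ∅`: the set is `{2x+1 | x ∈ T i}`, pairs with sum `n` correspond to pairs of `T i` with sum
`(n-2)/2`: at most `R i ≤ X` (`j = 0` in the hypothesis).  If `F i ≠ ∅` then `x < M i` for all
digits; every element is `y = (2x+1) + 4 M b` with `x = y % (4M) / 2`, `b = y / (4M)`, and `b = 0`,
`x ∈ T i`, or `b ∈ glue F T M (m-1) (i+1)` (odd) and `x ∈ F i`.  For `y + y' = n`:
`n % (4M) = 2 (x+x') + 2`, `q := n / (4M) = b + b'`.  `q = 0`: `b = b' = 0`, at most `R i` pairs.
`q` odd: exactly one of `b, b'` is `0` and the other is `q`: at most `2 R i` pairs.  `q ≥ 2` even: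
`b, b'` odd, `b + b' = q`, `x, x' ∈ F i`, `x + x'` fixed: at most `R' i * rp (glue m-1 (i+1)) q`, and
the induction hypothesis for `q` with `X / R' i` (`PV (i) (j+1) = 4 M i * PV (i+1) j ≤ 4 M i q ≤ n`). -/
theorem glue_rep {F T : ℕ → Set ℕ} {M : ℕ → ℕ} {R' R : ℕ → ℝ} (S : Stages F T M R' R) :
    ∀ (m i n : ℕ) (X : ℝ), 0 ≤ X →
      (∀ j ≤ m, (∀ k < j, (F (i + k)).Nonempty) → PV M i j ≤ n →
        2 * (∏ k ∈ Finset.range j, R' (i + k)) * R (i + j) ≤ X) →
      (rp (glue F T M m i) n : ℝ) ≤ X := by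
  intro m
  induction m with
  | zero =>
    intro i n X hX h
    by_cases hn : 1 ≤ n
    · have h1 := h 0 le_rfl (by intro k hk; omega) (by rw [PV_zero]; exact hn)
      simp only [Finset.range_zero, Finset.prod_empty, mul_one, add_zero] at h1
      have h2 := S.hR1 i
      exact (rp_code (T i) n (S.hR i) (by linarith)).trans (by linarith)
    · have : rp (glue F T M 0 i) n = 0 := by
        unfold rp
        rw [Set.ncard_eq_zero (rp_finite _ _ _), Set.eq_empty_iff_forall_notMem]
        rintro ⟨a, b⟩ ⟨ha, hb, hab⟩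
        have := glue_odd F T M 0 i a ha
        simp only at hab this
        omega
      rw [this]
      simpa using hX
  | succ m ih =>
    intro i n X hX h
    by_cases hn : 1 ≤ n
    swap
    · have : rp (glue F T M (m + 1) i) n = 0 := by
        unfold rp
        rw [Set.ncard_eq_zero (rp_finite _ _ _), Set.eq_empty_iff_forall_notMem]
        rintro ⟨a, b⟩ ⟨ha, hb, hab⟩
        have := glue_odd F T M (m + 1) i a ha
        simp only at hab this
        omega
      rw [this]
      simpa using hX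
    have h1 := h 0 (Nat.zero_le _) (by intro k hk; omega) (by rw [PV_zero]; exact hn)
    simp only [Finset.range_zero, Finset.prod_empty, mul_one, add_zero] at h1
    have h2 := S.hR1 i
    by_cases hne : (F i).Nonempty
    swap
    · -- last stage
      have heq : glue F T M (m + 1) i = {y | ∃ x ∈ T i, y = 2 * x + 1} := by
        rw [Set.not_nonempty_iff_eq_empty] at hne
        ext y
        constructor
        · rintro (hy | ⟨s, hs, -⟩)
          · exact hy
          · rw [hne] at hs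
            exact absurd hs (Set.notMem_empty s)
        · intro hy
          exact Or.inl hy
      rw [heq]
      exact (rp_code (T i) n (S.hR i) (by linarith)).trans (by linarith)
    obtain ⟨s0, hs0⟩ := hne
    have hne : (F i).Nonempty := ⟨s0, hs0⟩
    have hM : 0 < M i := lt_of_le_of_lt (Nat.zero_le _) (S.hF i s0 hs0)
    obtain ⟨q, hq⟩ : ∃ q, q = n / (4 * M i) := ⟨_, rfl⟩
    obtain ⟨r, hr⟩ : ∃ r, r = (n % (4 * M i) - 2) / 2 := ⟨_, rfl⟩
    have hb_pos : ∀ b ∈ glue F T M m (i + 1), b % 2 = 1 := glue_odd F T M m (i + 1)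
    set P := {x : ℕ × ℕ | x.1 ∈ glue F T M (m + 1) i ∧ x.2 ∈ glue F T M (m + 1) i ∧
      x.1 + x.2 = n} with hP
    set QT := {x : ℕ × ℕ | x.1 ∈ T i ∧ x.2 ∈ T i ∧ x.1 + x.2 = r} with hQT
    have hQTfin : QT.Finite := rp_finite _ _ _
    have hQTR : (QT.ncard : ℝ) ≤ R i := S.hR i r
    have key : ∀ z ∈ P, ∃ x x' b b', x < M i ∧ x' < M i ∧
        z = ((2 * x + 1) + 4 * M i * b, (2 * x' + 1) + 4 * M i * b') ∧
        b + b' = q ∧ x + x' = r ∧
        ((b = 0 ∧ x ∈ T i) ∨ (b ∈ glue F T M m (i + 1) ∧ x ∈ F i)) ∧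
        ((b' = 0 ∧ x' ∈ T i) ∨ (b' ∈ glue F T M m (i + 1) ∧ x' ∈ F i)) := by
      rintro ⟨y, y'⟩ ⟨hy, hy', hyy⟩
      obtain ⟨x, hx, b, rfl, hb⟩ := glue_dec S hne hy
      obtain ⟨x', hx', b', h3, hb'⟩ := glue_dec S hne hy'
      simp only at h3 hyy
      subst h3
      obtain ⟨h4, h5⟩ := glue_sum hx hx' hyy
      exact ⟨x, x', b, b', hx, hx', rfl, by rw [hq, h4], by rw [hr, ← h5]; omega, hb, hb'⟩
    rcases Nat.eq_zero_or_pos q with hq0 | hq0
    · -- q = 0
      have hsub : P ⊆ (fun z : ℕ × ℕ => (2 * z.1 + 1, 2 * z.2 + 1)) '' QT := by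
        intro z hz
        obtain ⟨x, x', b, b', -, -, rfl, h3, h4, h5, h6⟩ := key z hz
        have hb0 : b = 0 := by omega
        have hb0' : b' = 0 := by omega
        subst hb0 hb0'
        refine ⟨(x, x'), ⟨?_, ?_, h4⟩, by simp⟩
        · rcases h5 with h5 | h5
          · exact h5.2
          · exact S.hFT i h5.2
        · rcases h6 with h6 | h6
          · exact h6.2
          · exact S.hFT i h6.2
      have h3 := (Set.ncard_le_ncard hsub (hQTfin.image _)).trans (Set.ncard_image_le hQTfin)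
      have h4 : (P.ncard : ℝ) ≤ QT.ncard := by exact_mod_cast h3
      show (P.ncard : ℝ) ≤ X
      linarith
    · rcases Nat.even_or_odd q with hqe | hqo
      · -- q even, positive
        set QF := {x : ℕ × ℕ | x.1 ∈ F i ∧ x.2 ∈ F i ∧ x.1 + x.2 = r} with hQF
        set QB := {x : ℕ × ℕ | x.1 ∈ glue F T M m (i + 1) ∧ x.2 ∈ glue F T M m (i + 1) ∧
          x.1 + x.2 = q} with hQB
        have hQFfin : QF.Finite := rp_finite _ _ _
        have hQBfin : QB.Finite := rp_finite _ _ _
        have hsub : P ⊆ (fun z : (ℕ × ℕ) × (ℕ × ℕ) => ((2 * z.1.1 + 1) + 4 * M i * z.2.1,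
            (2 * z.1.2 + 1) + 4 * M i * z.2.2)) '' (QF ×ˢ QB) := by
          intro z hz
          obtain ⟨x, x', b, b', -, -, rfl, h3, h4, h5, h6⟩ := key z hz
          have hqe' : q % 2 = 0 := Nat.even_iff.1 hqe
          have hb : b ∈ glue F T M m (i + 1) ∧ x ∈ F i := by
            rcases h5 with ⟨h5, -⟩ | h5
            · exfalso
              rcases h6 with ⟨h6, -⟩ | ⟨h6, -⟩
              · omega
              · have := hb_pos b' h6
                omega
            · exact h5
          have hb' : b' ∈ glue F T M m (i + 1) ∧ x' ∈ F i := by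
            rcases h6 with ⟨h6, -⟩ | h6
            · exfalso
              have := hb_pos b hb.1
              omega
            · exact h6
          exact ⟨((x, x'), (b, b')), ⟨⟨hb.2, hb'.2, h4⟩, ⟨hb.1, hb'.1, h3⟩⟩, rfl⟩
        have h3 := (Set.ncard_le_ncard hsub ((hQFfin.prod hQBfin).image _)).trans
          (Set.ncard_image_le (hQFfin.prod hQBfin))
        rw [Set.ncard_prod] at h3
        have h4 : (P.ncard : ℝ) ≤ QF.ncard * QB.ncard := by exact_mod_cast h3
        have hR' : (QF.ncard : ℝ) ≤ R' i := S.hR' i r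
        have hR'1 := S.hR'1 i
        have hIH : (QB.ncard : ℝ) ≤ X / R' i := by
          refine ih (i + 1) q (X / R' i) (by positivity) ?_
          intro j hj hjn hjq
          have h5 := h (j + 1) (by omega) ?_ ?_
          · rw [Finset.prod_range_succ'] at h5
            rw [le_div_iff₀ (by linarith)]
            have e1 : ∏ k ∈ Finset.range j, R' (i + (k + 1)) =
                ∏ k ∈ Finset.range j, R' (i + 1 + k) :=
              Finset.prod_congr rfl fun k _ => by rw [show i + (k + 1) = i + 1 + k by ring]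
            rw [e1, show i + (j + 1) = i + 1 + j by ring, add_zero] at h5
            calc 2 * (∏ k ∈ Finset.range j, R' (i + 1 + k)) * R (i + 1 + j) * R' i
                = 2 * ((∏ k ∈ Finset.range j, R' (i + 1 + k)) * R' i) * R (i + 1 + j) := by ring
              _ ≤ X := h5
          · intro k hk
            rcases k with _ | k
            · simpa using hne
            · have := hjn k (by omega)
              rwa [show i + (k + 1) = i + 1 + k by ring]
          · rw [PV_succ]
            calc 4 * M i * PV M (i + 1) j ≤ 4 * M i * q := Nat.mul_le_mul_left _ hjq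
              _ ≤ n := by rw [hq]; exact Nat.mul_div_le _ _
        show (P.ncard : ℝ) ≤ X
        calc (P.ncard : ℝ) ≤ QF.ncard * QB.ncard := h4
          _ ≤ R' i * (X / R' i) := by
            apply mul_le_mul hR' hIH (Nat.cast_nonneg _) (by linarith)
          _ = X := by field_simp
      · -- q odd
        have hqo' : q % 2 = 1 := Nat.odd_iff.1 hqo
        have hsub : P ⊆ (fun z : ℕ × ℕ => ((2 * z.1 + 1) + 4 * M i * 0,
            (2 * z.2 + 1) + 4 * M i * q)) '' QT ∪
            (fun z : ℕ × ℕ => ((2 * z.1 + 1) + 4 * M i * q, (2 * z.2 + 1) + 4 * M i * 0)) '' QT := by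
          intro z hz
          obtain ⟨x, x', b, b', -, -, rfl, h3, h4, h5, h6⟩ := key z hz
          have hxT : x ∈ T i := by
            rcases h5 with h5 | h5
            · exact h5.2
            · exact S.hFT i h5.2
          have hxT' : x' ∈ T i := by
            rcases h6 with h6 | h6
            · exact h6.2
            · exact S.hFT i h6.2
          rcases h5 with ⟨h5, -⟩ | ⟨h5, -⟩
          · left
            subst h5
            have : b' = q := by omega
            subst this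
            exact ⟨(x, x'), ⟨hxT, hxT', h4⟩, rfl⟩
          · right
            rcases h6 with ⟨h6, -⟩ | ⟨h6, -⟩
            · subst h6
              have : b = q := by omega
              subst this
              exact ⟨(x, x'), ⟨hxT, hxT', h4⟩, rfl⟩
            · exfalso
              have := hb_pos b h5
              have := hb_pos b' h6
              omega
        have h3 := (Set.ncard_le_ncard hsub ((hQTfin.image _).union (hQTfin.image _))).trans
          (Set.ncard_union_le _ _)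
        have h4 := Set.ncard_image_le (f := fun z : ℕ × ℕ => ((2 * z.1 + 1) + 4 * M i * 0,
            (2 * z.2 + 1) + 4 * M i * q)) hQTfin
        have h5 := Set.ncard_image_le (f := fun z : ℕ × ℕ => ((2 * z.1 + 1) + 4 * M i * q,
            (2 * z.2 + 1) + 4 * M i * 0)) hQTfin
        have h6 : (P.ncard : ℝ) ≤ QT.ncard + QT.ncard := by
          exact_mod_cast h3.trans (add_le_add h4 h5)
        show (P.ncard : ℝ) ≤ X
        linarith

end Pool.Agent.B2v
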