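import Mathlib

/-! Definitions (MP_491344_nt, variable density): the density function and the stages. -/

namespace Pool.Agent.B2v

/-- hypotheses on the density function -/
structure Prm (ε : ℕ → ℝ) (δ : ℝ) : Prop where
  pos : ∀ N, 2 ≤ N → 0 < ε N
  lt : ∀ N, 2 ≤ N → ε N < 1 / 16
  anti : ∀ M N, 2 ≤ M → M ≤ N → ε N ≤ ε M
  gam : ∀ M N : ℕ, 2 ≤ M → M ≤ N → ε M * Real.log M ≤ ε N * Real.log N
  low : ∃ N1 : ℕ, ∀ N : ℕ, N1 ≤ N → Real.log N ^ (-(1 / 2) + δ) ≤ ε N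

/-- the parameter of stage `i` -/
noncomputable def ee (δ l0 : ℝ) (i : ℕ) : ℝ := Real.exp (-(l0 * (1 + δ) ^ i))

/-- the result of the selection: stage `i` has radix `4 * M i`, place value `P i`, and ends at
`T i` if `fin i` -/
structure Sel (ε e : ℕ → ℝ) (M P T : ℕ → ℕ) (fin : ℕ → Prop) : Prop where
  P0 : P 0 = 1
  Ps : ∀ i, P (i + 1) = 4 * M i * P i
  Mf : ∀ i, ¬ fin i → M i = 0
  M3 : ∀ i, fin i → 3 ≤ M i
  dn : ∀ i, fin (i + 1) → fin i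
  T17 : ∀ i, fin i → 17 ^ (4 ^ i) ≤ T i
  Tlt : ∀ i N, 2 ≤ N → (fin i → N < T i) → 2 ^ (i + 6) * e i ≤ ε N
  Teps : ∀ i, fin i → ε (T i) < 2 ^ (i + 6) * e i
  TP : ∀ i, fin i → T i ≤ P (i + 1)
  PT : ∀ i, fin i → P (i + 1) ≤ T i ^ 2

end Pool.Agent.B2v
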