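import Pool.Agent.B2v.Del2
import Pool.Agent.B2v.Enc2
import Pool.Agent.B2v.Gl1
import Pool.Agent.B2g.Fin0

/-! Module STG0 (MP_491344_nt, variable density): one stage, explicit constants, given `ν`. -/

namespace Pool.Agent.B2v

open Pool.Agent.B2g

/-- the bound for the prime -/
private theorem stg0_prime {ν J : ℕ} (hν : 3 ≤ ν) {e : ℝ} (he : 0 < e) (he2 : e < 1 / 2)
    (hJ : (J : ℝ) ≤ Real.log (8 / e) + 3) :
    ∃ p : ℕ, p.Prime ∧ 2 ^ (40 * 4 ^ ν) ≤ p ∧ (J + 1) ^ 2 ≤ p ∧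
      2 ^ ν * (5 + J * (2 * ν + 4)) ≤ p ∧ Real.exp (8 * Real.log 2 / e) ≤ p ∧
      Real.log p ≤ 100 * (4 ^ ν + 1 / e) := by
  obtain ⟨a1, ha1⟩ : ∃ a : ℕ, a = 2 ^ (40 * 4 ^ ν) := ⟨_, rfl⟩
  obtain ⟨a2, ha2⟩ : ∃ a : ℕ, a = (J + 1) ^ 2 := ⟨_, rfl⟩
  obtain ⟨a3, ha3⟩ : ∃ a : ℕ, a = 2 ^ ν * (5 + J * (2 * ν + 4)) := ⟨_, rfl⟩
  obtain ⟨a4, ha4⟩ : ∃ a : ℕ, a = ⌈Real.exp (8 * Real.log 2 / e)⌉₊ := ⟨_, rfl⟩
  have h1 : 1 ≤ a1 := by rw [ha1]; exact Nat.one_le_pow _ _ (by norm_num)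
  have h2 : 1 ≤ a2 := by rw [ha2]; exact Nat.one_le_pow _ _ (by omega)
  have h3 : 1 ≤ a3 := by
    rw [ha3]
    exact Nat.mul_pos (by positivity) (by omega)
  have h4 : 1 ≤ a4 := by
    rw [ha4]
    exact Nat.one_le_iff_ne_zero.2 (Nat.ceil_pos.2 (Real.exp_pos _)).ne'
  -- product bound
  obtain ⟨p, hp, hp1, hp2⟩ := Nat.exists_prime_lt_and_le_two_mul (4 * (a1 * a2 * a3 * a4))
    (by positivity)
  have hA : ∀ x, x ≤ a1 * a2 * a3 * a4 → x ≤ p := by intro x hx; omega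
  have m1 : a1 ≤ a1 * a2 * a3 * a4 := by
    calc a1 = a1 * 1 * 1 * 1 := by ring
      _ ≤ a1 * a2 * a3 * a4 := by gcongr
  have m2 : a2 ≤ a1 * a2 * a3 * a4 := by
    calc a2 = 1 * a2 * 1 * 1 := by ring
      _ ≤ a1 * a2 * a3 * a4 := by gcongr
  have m3 : a3 ≤ a1 * a2 * a3 * a4 := by
    calc a3 = 1 * 1 * a3 * 1 := by ring
      _ ≤ a1 * a2 * a3 * a4 := by gcongr
  have m4 : a4 ≤ a1 * a2 * a3 * a4 := by
    calc a4 = 1 * 1 * 1 * a4 := by ring
      _ ≤ a1 * a2 * a3 * a4 := by gcongr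
  refine ⟨p, hp, ?_, ?_, ?_, ?_, ?_⟩
  · rw [← ha1]; exact hA _ m1
  · rw [← ha2]; exact hA _ m2
  · rw [← ha3]; exact hA _ m3
  · have : Real.exp (8 * Real.log 2 / e) ≤ a4 := by rw [ha4]; exact Nat.le_ceil _
    refine this.trans ?_
    exact_mod_cast hA _ m4
  · have hlog2a : (0.6931471803 : ℝ) < Real.log 2 := Real.log_two_gt_d9
    have hlog2b : Real.log 2 < 0.6931471808 := Real.log_two_lt_d9
    have hpR : (p : ℝ) ≤ 8 * (a1 * a2 * a3 * a4) := by
      have : p ≤ 8 * (a1 * a2 * a3 * a4) := by omega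
      exact_mod_cast this
    have hp0 : (0 : ℝ) < p := by exact_mod_cast hp.pos
    have q1 : (0 : ℝ) < a1 := by exact_mod_cast h1
    have q2 : (0 : ℝ) < a2 := by exact_mod_cast h2
    have q3 : (0 : ℝ) < a3 := by exact_mod_cast h3
    have q4 : (0 : ℝ) < a4 := by exact_mod_cast h4
    have hl : Real.log p ≤ Real.log 8 + (Real.log a1 + Real.log a2 + Real.log a3 + Real.log a4) := by
      calc Real.log p ≤ Real.log (8 * (a1 * a2 * a3 * a4)) := Real.log_le_log hp0 hpR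
        _ = _ := by
          rw [Real.log_mul (by norm_num) (by positivity), Real.log_mul (by positivity) q4.ne',
            Real.log_mul (by positivity) q3.ne', Real.log_mul q1.ne' q2.ne']
    have hlog8 : Real.log 8 = 3 * Real.log 2 := by
      rw [show (8 : ℝ) = 2 ^ 3 by norm_num, Real.log_pow]
      norm_num
    have he1 : 2 < 1 / e := by
      rw [lt_div_iff₀ he]; linarith
    -- n = 4^ν
    have h4ν : (64 : ℝ) ≤ 4 ^ ν := by
      calc (64 : ℝ) = 4 ^ 3 := by norm_num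
        _ ≤ 4 ^ ν := pow_le_pow_right₀ (by norm_num) hν
    have hν4 : (ν : ℝ) ≤ 4 ^ ν := by
      have : ν < 4 ^ ν := Nat.lt_pow_self (by norm_num)
      exact_mod_cast this.le
    have hlogc : Real.log (8 / e) ≤ 8 / e - 1 := Real.log_le_sub_one_of_pos (by positivity)
    have hJ' : (J : ℝ) ≤ 8 / e + 2 := by linarith
    have hlogJ : Real.log (J + 1) ≤ J := by
      have := Real.log_le_sub_one_of_pos (show (0 : ℝ) < J + 1 by positivity)
      linarith
    have hloge : Real.log (8 / e) ≤ 3 * Real.log 2 + (1 / e - 1) := by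
      rw [show 8 / e = 8 * (1 / e) by ring, Real.log_mul (by norm_num) (by positivity), hlog8]
      have := Real.log_le_sub_one_of_pos (show (0 : ℝ) < 1 / e by positivity)
      linarith
    have hJ2 : (J : ℝ) ≤ 1 / e + 5 := by linarith
    have l1 : Real.log a1 ≤ 28 * 4 ^ ν := by
      rw [ha1]
      push_cast
      rw [Real.log_pow]
      push_cast
      nlinarith
    have l2 : Real.log a2 ≤ 2 * (1 / e + 5) := by
      rw [ha2]
      push_cast
      rw [Real.log_pow]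
      push_cast
      linarith
    have l3 : Real.log a3 ≤ ν + ((J : ℝ) + 5) + (2 * ν + 4) := by
      rw [ha3]
      push_cast
      rw [Real.log_mul (by positivity) (by positivity), Real.log_pow]
      have e1 : (5 + (J : ℝ) * (2 * ν + 4)) ≤ (J + 5) * (2 * ν + 4) := by
        have : (0 : ℝ) ≤ ν := Nat.cast_nonneg _
        nlinarith
      have e2 : Real.log (5 + (J : ℝ) * (2 * ν + 4)) ≤ Real.log ((J : ℝ) + 5) +
          Real.log (2 * ν + 4) := by
        rw [← Real.log_mul (by positivity) (by positivity)]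
        exact Real.log_le_log (by positivity) e1
      have e3 := Real.log_le_sub_one_of_pos (show (0 : ℝ) < (J : ℝ) + 5 by positivity)
      have e4 := Real.log_le_sub_one_of_pos (show (0 : ℝ) < 2 * (ν : ℝ) + 4 by positivity)
      have e5 : (ν : ℝ) * Real.log 2 ≤ ν := by
        have : (0 : ℝ) ≤ ν := Nat.cast_nonneg _
        nlinarith
      linarith
    have l4 : Real.log a4 ≤ 6 * (1 / e) + 1 := by
      have e1 : (a4 : ℝ) ≤ 2 * Real.exp (8 * Real.log 2 / e) := by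
        rw [ha4]
        have e2 : (1 : ℝ) ≤ Real.exp (8 * Real.log 2 / e) := Real.one_le_exp (by positivity)
        have e3 := (Nat.ceil_lt_add_one (Real.exp_pos (8 * Real.log 2 / e)).le).le
        linarith
      calc Real.log a4 ≤ Real.log (2 * Real.exp (8 * Real.log 2 / e)) := Real.log_le_log q4 e1
        _ = Real.log 2 + 8 * Real.log 2 / e := by
          rw [Real.log_mul (by norm_num) (Real.exp_pos _).ne', Real.log_exp]
        _ ≤ 6 * (1 / e) + 1 := by
          have : 8 * Real.log 2 / e = 8 * Real.log 2 * (1 / e) := by ring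
          rw [this]
          nlinarith
    linarith

/-- Module STG0.  As `fin0`: `J = ⌈log (8/e) / log (2^(ν-1))⌉ + 2`, `a = a1 + a2 + a3 + a4`
(`a1 = 2^(40*4^ν)`, `a2 = (J+1)^2`, `a3 = 2^ν (5 + J (2ν+4))`, `a4 = ⌈exp (8 log 2 / e)⌉`), `p` prime
with `a < p ≤ 2 a` (`Nat.exists_prime_lt_and_le_two_mul`), so `log p ≤ 100 (4^ν + 1/e)`;
`deletion2`, `encode2`.  For `y ≥ 2` take `D` with `2 Q^D ≤ y < 2 Q^(D+1)`, `Q = 16 p^2`:
`#(A ∩ [1,y]) ≥ #(X D) ≥ p^l / 2`, `D - l ≤ KK ν` or `D - l ≤ (2/2^ν)^J D ≤ (e/8) D`, and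
`log Q ≤ (2 + e) log p`  (`log 16 ≤ e log p` since `p ≥ 2^(8/e)`: even `log 2 ≤ (e/8) log p`). -/
theorem stage0 {ν : ℕ} (hν : 3 ≤ ν) {e : ℝ} (he : 0 < e) (he2 : e < 1 / 2) :
    ∃ A : Set ℕ,
      (∀ n : ℕ, (rp A n : ℝ) ≤
        2 ^ (Real.log (8 / e) / Real.log (2 ^ (ν - 1)) + 60 * 4 ^ ν)) ∧
      ∀ y : ℕ, 2 ≤ y → (y : ℝ) ^ (1 / 2 - e) ≤
        Real.exp (((KK ν : ℝ) + 4) * (300 * (4 ^ ν + 1 / e))) * ((A ∩ Set.Icc 1 y).ncard : ℝ) := by
  set x : ℝ := Real.log (8 / e) / Real.log (2 ^ (ν - 1)) with hx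
  obtain ⟨J, hJ⟩ : ∃ J : ℕ, J = ⌈x⌉₊ + 2 := ⟨_, rfl⟩
  have hlog2a : (0.6931471803 : ℝ) < Real.log 2 := Real.log_two_gt_d9
  have hlog2b : Real.log 2 < 0.6931471808 := Real.log_two_lt_d9
  have h8 : (1 : ℝ) < 8 / e := by
    rw [lt_div_iff₀ he]
    linarith
  have hb : (1 : ℝ) < 2 ^ (ν - 1) := one_lt_pow₀ (by norm_num) (by omega)
  have hlb : 0 < Real.log (2 ^ (ν - 1)) := Real.log_pos hb
  have hl8 : 0 < Real.log (8 / e) := Real.log_pos h8
  have hlb1 : 1 ≤ Real.log (2 ^ (ν - 1)) := by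
    have e1 : Real.log (2 ^ 2) ≤ Real.log ((2 : ℝ) ^ (ν - 1)) :=
      Real.log_le_log (by norm_num) (pow_le_pow_right₀ (by norm_num) (by omega))
    rw [Real.log_pow] at e1
    push_cast at e1
    linarith
  have hx0 : 0 ≤ x := (div_pos hl8 hlb).le
  have hxl : x ≤ Real.log (8 / e) := by
    rw [hx]
    exact div_le_self hl8.le hlb1
  have hxJ : x ≤ J := by
    rw [hJ]
    push_cast
    have := Nat.le_ceil x
    linarith
  have hJx : (J : ℝ) ≤ x + 3 := by
    rw [hJ]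
    push_cast
    have := (Nat.ceil_lt_add_one hx0).le
    linarith
  obtain ⟨p, hp, hq1, hq2, hq3, hq4, hlp⟩ := stg0_prime (J := J) hν he he2 (by linarith)
  have : Fact p.Prime := ⟨hp⟩
  have h1 : (2 / 2 ^ ν : ℝ) ^ J ≤ e / 8 := by
    have e1 : (2 / 2 ^ ν : ℝ) = (2 ^ (ν - 1))⁻¹ := by
      have : (2 : ℝ) ^ ν = 2 * 2 ^ (ν - 1) := by
        rw [← pow_succ']
        congr 1
        omega
      rw [this]
      field_simp
    rw [e1, inv_pow]
    have e2 : 8 / e ≤ (2 ^ (ν - 1) : ℝ) ^ J := by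
      rw [← Real.log_le_log_iff (by linarith) (by positivity), Real.log_pow]
      have : x * Real.log (2 ^ (ν - 1)) = Real.log (8 / e) := by
        rw [hx]
        field_simp
      rw [← this]
      exact mul_le_mul_of_nonneg_right hxJ hlb.le
    calc ((2 ^ (ν - 1) : ℝ) ^ J)⁻¹ ≤ (8 / e)⁻¹ := inv_anti₀ (by linarith) e2
      _ = e / 8 := by rw [inv_div]
  have hpp : (0 : ℝ) < p := by exact_mod_cast hp.pos
  set P : ℝ := Real.log p with hP
  have h2 : Real.log 2 ≤ e / 8 * P := by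
    have e2 : 8 * Real.log 2 / e ≤ P := by
      rw [hP, Real.le_log_iff_exp_le hpp]
      exact hq4
    rw [div_le_iff₀ he] at e2
    linarith
  have hP0 : 0 < P := by
    by_contra hcon
    push Not at hcon
    nlinarith
  obtain ⟨X, hX0, hX1, hX2⟩ := deletion2 (p := p) hν (J := J) (by omega) hq1 hq2 hq3
  obtain ⟨A, hA1, hA2⟩ := encode2 (p := p) hX0 hX2
  refine ⟨A, fun n => ?_, fun y hy => ?_⟩
  · have e1 : (rp A n : ℝ) ≤ ((2 * RR ν J : ℕ) : ℝ) := by exact_mod_cast hA1 n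
    refine e1.trans ?_
    rw [FIN0_exp]
    push_cast
    rw [← Real.rpow_natCast]
    refine Real.rpow_le_rpow_of_exponent_le (by norm_num) ?_
    push_cast
    have e2 : (2 : ℝ) ^ ν * 2 ^ ν = 4 ^ ν := by
      rw [← mul_pow]
      norm_num
    have e3 : (8 : ℝ) ≤ 2 ^ ν := by
      calc (8 : ℝ) = 2 ^ 3 := by norm_num
        _ ≤ 2 ^ ν := pow_le_pow_right₀ (by norm_num) hν
    nlinarith
  · -- choice of D
    obtain ⟨Q, hQ⟩ : ∃ Q : ℕ, Q = 16 * p ^ 2 := ⟨_, rfl⟩
    have hp1 : 1 < p := hp.one_lt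
    have hQ1 : 2 ≤ Q := by rw [hQ]; nlinarith
    have hex : ∃ D, y < 2 * Q ^ D := by
      refine ⟨y, ?_⟩
      calc y < 2 ^ y := Nat.lt_two_pow_self
        _ ≤ Q ^ y := Nat.pow_le_pow_left hQ1 y
        _ ≤ 2 * Q ^ y := by omega
    classical
    set D' := Nat.find hex with hD'
    have hD1 : y < 2 * Q ^ D' := Nat.find_spec hex
    have hD0 : D' ≠ 0 := by
      intro h
      rw [h, pow_zero] at hD1
      omega
    obtain ⟨D, hD⟩ := Nat.exists_eq_succ_of_ne_zero hD0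
    have hD2 : 2 * Q ^ D ≤ y := by
      have := Nat.find_min hex (m := D) (by omega)
      omega
    rw [hD] at hD1
    obtain ⟨hfin, l, hl1, hl2, hl3⟩ := hX1 D
    have hA3 := hA2 D y (by rw [← hQ]; exact hD2)
    -- the loss
    have hloss : (D : ℝ) - l ≤ KK ν + e / 8 * D := by
      rcases hl3 with h | h
      · have : ((D - l : ℕ) : ℝ) ≤ KK ν := by exact_mod_cast h
        rw [Nat.cast_sub hl2] at this
        have : (0 : ℝ) ≤ e / 8 * D := by positivity
        linarith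
      · have h3 : ((D - l : ℕ) : ℝ) * (2 ^ ν) ^ J ≤ 2 ^ J * D := by exact_mod_cast h
        rw [Nat.cast_sub hl2] at h3
        have h4 : (0 : ℝ) < (2 ^ ν) ^ J := by positivity
        have h5 : ((D : ℝ) - l) ≤ (2 / 2 ^ ν) ^ J * D := by
          rw [div_pow, div_mul_eq_mul_div, le_div_iff₀ h4]
          exact h3
        have h6 : (2 / 2 ^ ν : ℝ) ^ J * D ≤ e / 8 * D :=
          mul_le_mul_of_nonneg_right h1 (Nat.cast_nonneg _)
        have : (0 : ℝ) ≤ KK ν := Nat.cast_nonneg _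
        linarith
    have hlogQ : Real.log Q ≤ (2 + e / 2) * P := by
      rw [hQ]
      push_cast
      rw [Real.log_mul (by norm_num) (by positivity), Real.log_pow]
      have : Real.log 16 = 4 * Real.log 2 := by
        rw [show (16 : ℝ) = 2 ^ 4 by norm_num, Real.log_pow]
        norm_num
      rw [this]
      push_cast
      rw [← hP]
      linarith
    have hlogQ0 : 0 < Real.log Q := Real.log_pos (by exact_mod_cast (by omega : 1 < Q))
    have hyR : (y : ℝ) ≤ 2 * Q ^ (D + 1) := by exact_mod_cast hD1.le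
    have hy0 : (0 : ℝ) < y := by positivity
    have hQR : (0 : ℝ) < Q := by positivity
    have hlogy : Real.log y ≤ Real.log 2 + (D + 1) * ((2 + e / 2) * P) := by
      calc Real.log y ≤ Real.log (2 * Q ^ (D + 1)) := Real.log_le_log hy0 hyR
        _ = Real.log 2 + (D + 1) * Real.log Q := by
          rw [Real.log_mul (by norm_num) (by positivity), Real.log_pow]
          push_cast
          ring
        _ ≤ _ := by
          have : (0 : ℝ) ≤ (D : ℝ) + 1 := by positivity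
          have := mul_le_mul_of_nonneg_left hlogQ this
          linarith
    have hK0 : (0 : ℝ) ≤ KK ν := Nat.cast_nonneg _
    have hmain : (1 / 2 - e) * Real.log y ≤
        ((KK ν : ℝ) + 4) * (300 * (4 ^ ν + 1 / e)) + (l * P - Real.log 2) := by
      have c1 : (1 / 2 - e) * Real.log y ≤
          (1 / 2 - e) * (Real.log 2 + (D + 1) * ((2 + e / 2) * P)) :=
        mul_le_mul_of_nonneg_left hlogy (by linarith)
      have d1 : 0 ≤ ((D : ℝ) + 1) * P := by positivity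
      have d2 : (1 / 2 - e) * (2 + e / 2) ≤ 1 - e := by nlinarith
      have c2 : (1 / 2 - e) * (Real.log 2 + (D + 1) * ((2 + e / 2) * P)) ≤
          Real.log 2 + (1 - e) * ((D + 1) * P) := by
        have d3 := mul_le_mul_of_nonneg_right d2 d1
        have d4 : (1 / 2 - e) * Real.log 2 ≤ 1 * Real.log 2 :=
          mul_le_mul_of_nonneg_right (by linarith) (by linarith)
        calc (1 / 2 - e) * (Real.log 2 + (D + 1) * ((2 + e / 2) * P))
            = (1 / 2 - e) * Real.log 2 + (1 / 2 - e) * (2 + e / 2) * ((D + 1) * P) := by ring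
          _ ≤ 1 * Real.log 2 + (1 - e) * ((D + 1) * P) := add_le_add d4 d3
          _ = _ := by ring
      have c3 : (l : ℝ) * P ≥ (D - (KK ν + e / 8 * D)) * P :=
        mul_le_mul_of_nonneg_right (by linarith) hP0.le
      have c3' : (D - ((KK ν : ℝ) + e / 8 * D)) * P =
          (D : ℝ) * P - KK ν * P - 1 / 8 * (e * (D * P)) := by ring
      have c4 : ((KK ν : ℝ) + 4) * (3 * P) ≤ ((KK ν : ℝ) + 4) * (300 * (4 ^ ν + 1 / e)) :=
        mul_le_mul_of_nonneg_left (by linarith) (by linarith)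
      have c4' : ((KK ν : ℝ) + 4) * (3 * P) = 3 * (KK ν * P) + 12 * P := by ring
      have c5 : Real.log 2 ≤ P := by
        have : e / 8 * P ≤ 1 * P := mul_le_mul_of_nonneg_right (by linarith) hP0.le
        linarith
      have c6 : 0 ≤ e * ((D : ℝ) * P) := by positivity
      have c7 : 0 ≤ (KK ν : ℝ) * P := by positivity
      have c8 : (1 - e) * (((D : ℝ) + 1) * P) = (D : ℝ) * P + P - e * (D * P) - e * P := by ring
      have c9 : 0 ≤ e * P := by positivity
      linarith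
    have hcard : (p : ℝ) ^ l / 2 ≤ ((A ∩ Set.Icc 1 y).ncard : ℝ) := by
      have e1 : (p : ℝ) ^ l ≤ 2 * (X D).ncard := by exact_mod_cast hl1
      have e2 : ((X D).ncard : ℝ) ≤ ((A ∩ Set.Icc 1 y).ncard : ℝ) := by exact_mod_cast hA3
      linarith
    calc (y : ℝ) ^ (1 / 2 - e) = Real.exp ((1 / 2 - e) * Real.log y) := by
          rw [Real.rpow_def_of_pos hy0, mul_comm]
      _ ≤ Real.exp (((KK ν : ℝ) + 4) * (300 * (4 ^ ν + 1 / e)) + (l * P - Real.log 2)) :=
          Real.exp_le_exp.2 hmain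
      _ = Real.exp (((KK ν : ℝ) + 4) * (300 * (4 ^ ν + 1 / e))) * ((p : ℝ) ^ l / 2) := by
          rw [Real.exp_add, Real.exp_sub, Real.exp_log (by norm_num), mul_comm (l : ℝ) P,
            hP, ← Real.rpow_def_of_pos hpp, Real.rpow_natCast]
      _ ≤ _ := mul_le_mul_of_nonneg_left hcard (Real.exp_pos _).le

end Pool.Agent.B2v
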